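import Pool.Agent.Q38.RL.RateP

/-!
The ratio theorem and the comparison of the laws in arbitrary domains.
-/

set_option autoImplicit false

namespace Q38.RL

open Finset Filter Topology TH966.KS TH966.KO TH966.AK Q294.Rs
open scoped Classical

variable {A : P → P → Prop} {Z : Rule A} {μ K : ℝ}

/-- the walks in the domain `D` -/
noncomputable def KD (A : P → P → Prop) (D : Set P) (n : ℕ) : Finset (List P) :=
  (Kw A n).filter (fun w => ∀ x ∈ w, x ∈ D)

/-- the walks in the domain `D` with an event for the first `k` steps and the last point -/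
noncomputable def KE (A : P → P → Prop) (D : Set P) (E : List P → P → Prop) (k n : ℕ) :
    Finset (List P) :=
  (Kw A n).filter (fun w => (∀ x ∈ w, x ∈ D) ∧ E (w.take (k + 1)) (lst w))

theorem KE_eq (Z : Rule A) (D : Set P) (E : List P → P → Prop) (k n : ℕ) :
    KE A D E k n = KP A (fun η e x => x ∈ D ∧ E η e) k n := by
  ext w
  rw [mem_KP]
  unfold KE
  rw [mem_filter]
  refine and_congr_right fun hw => ?_
  rw [Z.mem_K] at hw
  obtain ⟨x, t, rfl⟩ := List.exists_cons_of_length_eq_add_one hw.1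
  constructor
  · exact fun h y hy => ⟨h.1 y hy, h.2⟩
  · exact fun h => ⟨fun y hy => (h y hy).1, (h x (by simp)).2⟩

theorem KD_eq (D : Set P) (k n : ℕ) :
    KD A D n = KP A (fun _ _ x => x ∈ D) k n := rfl

theorem card_compl (D : Set P) (E : List P → P → Prop) (k n : ℕ) :
    ((KE A D E k n).card : ℝ) + (KE A D (fun η e => ¬ E η e) k n).card = (KD A D n).card := by
  have h : KE A D E k n = (KD A D n).filter (fun w => E (w.take (k + 1)) (lst w)) := by
    unfold KE KD
    ext w
    simp only [mem_filter, and_assoc]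
  have h' : KE A D (fun η e => ¬ E η e) k n =
      (KD A D n).filter (fun w => ¬ E (w.take (k + 1)) (lst w)) := by
    unfold KE KD
    ext w
    simp only [mem_filter, and_assoc]
  rw [h, h']
  exact_mod_cast card_filter_add_card_filter_not (s := KD A D n)
    (fun w => E (w.take (k + 1)) (lst w))

theorem KE_le (D : Set P) (E : List P → P → Prop) (k n : ℕ) :
    ((KE A D E k n).card : ℝ) ≤ (KD A D n).card := by
  have := card_compl (A := A) D E k n
  have h2 : (0 : ℝ) ≤ (KE A D (fun η e => ¬ E η e) k n).card := Nat.cast_nonneg _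
  linarith

theorem KD_step (Z : Rule A) (D : Set P) (n : ℕ) : (KD A D (n + 1)).card ≤ 9 * (KD A D n).card := by
  have h : KD A D (n + 1) ⊆
      (KD A D n).biUnion (fun w => (box (lst w) 1).image (fun e => w ++ [e])) := by
    intro w hw
    unfold KD at hw
    rw [mem_filter, Z.mem_K] at hw
    obtain ⟨⟨l1, l2, l3, l4⟩, hD⟩ := hw
    rcases w.eq_nil_or_concat with rfl | ⟨a, e, rfl⟩
    · simp at l1
    rw [List.concat_eq_append] at *
    rw [List.length_append, List.length_singleton, Nat.add_right_cancel_iff] at l1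
    obtain ⟨x, t, rfl⟩ := List.exists_cons_of_length_eq_add_one l1
    rw [mem_biUnion]
    refine ⟨x :: t, ?_, ?_⟩
    · unfold KD
      rw [mem_filter, Z.mem_K]
      refine ⟨⟨l1, ?_, ?_, ?_⟩, fun y hy => hD y ?_⟩
      · simpa using l2
      · exact l3.sublist (List.sublist_append_left _ _)
      · exact (List.isChain_append.1 l4).1
      · rw [List.mem_append]; exact Or.inl hy
    · rw [mem_image]
      refine ⟨e, ?_, rfl⟩
      rw [mem_box]
      have h1 := (List.isChain_append.1 l4).2.2 (lst (x :: t)) ?_ e (by simp)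
      · have := Z.step _ _ h1
        exact_mod_cast this
      · unfold lst
        rw [Option.mem_def, List.getLast?_eq_getLast_of_ne_nil (by simp)]
        rfl
  refine (card_le_card h).trans ?_
  refine (card_biUnion_le_card_mul _ _ 9 fun w _ => ?_).trans (by rw [mul_comm])
  refine card_image_le.trans ?_
  rw [card_box]
  norm_num

theorem KD_steps (Z : Rule A) (D : Set P) (n s : ℕ) :
    (KD A D (n + s)).card ≤ 9 ^ s * (KD A D n).card := by
  induction s with
  | zero => simp
  | succ s ih =>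
    have h := KD_step Z D (n + s)
    rw [← add_assoc]
    calc (KD A D (n + s + 1)).card ≤ 9 * (KD A D (n + s)).card := h
      _ ≤ 9 * (9 ^ s * (KD A D n).card) := Nat.mul_le_mul_left 9 ih
      _ = _ := by rw [pow_succ]; ring

theorem rt_log2 {L : ℝ} (hL : 0 ≤ L) {n : ℕ} (hn : 2 ≤ n) : rt (L + Real.log 2) n ≤ 3 * rt L n := by
  unfold rt
  have hn' : (2 : ℝ) ≤ n := by exact_mod_cast hn
  have hsn : 0 < √(n : ℝ) := Real.sqrt_pos.2 (by linarith)
  rw [← mul_div_assoc]
  refine div_le_div_of_nonneg_right ?_ hsn.le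
  have h1 : (0.69 : ℝ) < Real.log 2 := by
    have := Real.log_two_gt_d9
    linarith
  have h2 : Real.log 2 < 1 := by
    have := Real.log_two_lt_d9
    linarith
  have h3 : Real.log 2 ≤ Real.log n := Real.log_le_log (by norm_num) hn'
  have h4 : √(L + Real.log 2) ≤ √L + 1 := by
    rw [Real.sqrt_le_left (by positivity)]
    have := Real.sq_sqrt hL
    nlinarith [Real.sqrt_nonneg L]
  have h5 := Real.sqrt_nonneg L
  linarith

theorem rt_lower {L : ℝ} {n N : ℕ} (hn : 2 ≤ n) (hN : n ≤ N) : Real.log 2 / √(N : ℝ) ≤ rt L n := by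
  unfold rt
  have hn' : (2 : ℝ) ≤ n := by exact_mod_cast hn
  have hnN : (n : ℝ) ≤ N := by exact_mod_cast hN
  have hsn : 0 < √(n : ℝ) := Real.sqrt_pos.2 (by linarith)
  have hl2 : 0 < Real.log 2 := Real.log_pos (by norm_num)
  have h3 : Real.log 2 ≤ Real.log n := Real.log_le_log (by norm_num) hn'
  have h4 : √(n : ℝ) ≤ √(N : ℝ) := Real.sqrt_le_sqrt hnN
  have h5 := Real.sqrt_nonneg L
  rw [div_le_div_iff₀ (by linarith) hsn]
  calc Real.log 2 * √(n : ℝ) ≤ (Real.log n + √L) * √(N : ℝ) :=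
        mul_le_mul (by linarith) h4 hsn.le (by linarith)
    _ = _ := rfl

/-- two fractions -/
theorem frac {a a' c c' μ x : ℝ} (hμ : 0 < μ) (hc : 0 < c) (ha : 0 < a) (hac : a ≤ c)
    (hx0 : 0 ≤ x) (hx : x ≤ 1 / 6) (h1 : |a' / (μ * a) - 1| ≤ 3 * x)
    (h2 : |c' / (μ * c) - 1| ≤ x) : |a' / c' - a / c| ≤ 8 * x := by
  obtain ⟨u, hu⟩ : ∃ u, u = a' / (μ * a) := ⟨_, rfl⟩
  obtain ⟨v, hv⟩ : ∃ v, v = c' / (μ * c) := ⟨_, rfl⟩
  rw [← hu] at h1
  rw [← hv] at h2
  rw [abs_le] at h1 h2
  have hv0 : 1 / 2 ≤ v := by linarith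
  have ha' : a' = u * (μ * a) := by rw [hu]; field_simp
  have hc' : c' = v * (μ * c) := by rw [hv]; field_simp
  have e : a' / c' - a / c = a / c * ((u - v) / v) := by
    rw [ha', hc']
    field_simp
  rw [e, abs_mul, abs_of_nonneg (show 0 ≤ a / c by positivity), abs_div (u - v) v,
    abs_of_pos (show 0 < v by linarith)]
  have h3 : |u - v| ≤ 4 * x := by rw [abs_le]; constructor <;> linarith
  have h4 : |u - v| / v ≤ 8 * x := by
    rw [div_le_iff₀ (by linarith)]
    nlinarith
  calc a / c * (|u - v| / v) ≤ 1 * (8 * x) :=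
        mul_le_mul ((div_le_one hc).2 hac) h4 (by positivity) (by norm_num)
    _ = _ := one_mul _

theorem pn_ratio (hμ : 1 ≤ μ) (F : List P → P → P → Prop) (k n s : ℕ) :
    pn A μ F k (n + s) / pn A μ F k n =
      ((KP A F k (n + s)).card : ℝ) / (μ ^ s * (KP A F k n).card) := by
  have hμ0 : 0 < μ := by linarith
  unfold pn
  rw [pow_add]
  by_cases h : ((KP A F k n).card : ℝ) = 0
  · rw [h]; simp
  · field_simp

/-- **ratios and laws in domains, uniformly** -/
theorem domains (G : Growth Z μ K) (H : Hom A) (hs2 : Z.s ≤ 2) : ∃ C : ℝ, 0 < C ∧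
    ∀ n : ℕ, 2 ≤ n → ∀ (D : Set P) (L : ℝ), 0 ≤ L →
      Real.exp (-L) ≤ ((KD A D n).card : ℝ) / μ ^ n →
      |((KD A D (n + Z.s)).card : ℝ) / (μ ^ Z.s * (KD A D n).card) - 1| ≤ C * rt L n ∧
      ∀ k : ℕ, 8 * k ≤ n → ∀ E : List P → P → Prop,
        |((KE A D E k (n + Z.s)).card : ℝ) / (KD A D (n + Z.s)).card -
          ((KE A D E k n).card : ℝ) / (KD A D n).card| ≤ C * rt L n := by
  obtain ⟨R, hR, n1, h⟩ := rateN G H hs2
  have hμ := G.hμ
  have hμ0 : 0 < μ := by linarith
  have hl2 : 0 < Real.log 2 := Real.log_pos (by norm_num)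
  obtain ⟨N, hN⟩ : ∃ N : ℕ, N = n1 + 2 := ⟨_, rfl⟩
  have hN0 : 0 < √(N : ℝ) := Real.sqrt_pos.2 (by rw [hN]; positivity)
  refine ⟨600 * R + 82 * (√(N : ℝ) / Real.log 2), by positivity, fun n hn D L hL0 hL => ?_⟩
  have hrt := rt_nonneg L n
  have hK0 : 0 < ((KD A D n).card : ℝ) := by
    by_contra hc
    have h1 : ((KD A D n).card : ℝ) = 0 := le_antisymm (not_lt.1 hc) (Nat.cast_nonneg _)
    rw [h1, zero_div] at hL
    linarith [Real.exp_pos (-L)]
  -- the trivial bounds
  have htriv1 : |((KD A D (n + Z.s)).card : ℝ) / (μ ^ Z.s * (KD A D n).card) - 1| ≤ 82 := by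
    have h1 : ((KD A D (n + Z.s)).card : ℝ) ≤ 81 * (KD A D n).card := by
      have h2 := KD_steps Z D n Z.s
      have h3 : 9 ^ Z.s ≤ 9 ^ 2 := Nat.pow_le_pow_right (by norm_num) hs2
      have h4 : (KD A D (n + Z.s)).card ≤ 81 * (KD A D n).card :=
        h2.trans (Nat.mul_le_mul_right _ h3)
      exact_mod_cast h4
    have h2 : ((KD A D (n + Z.s)).card : ℝ) / (μ ^ Z.s * (KD A D n).card) ≤ 81 := by
      rw [div_le_iff₀ (by positivity)]
      have h3 : 1 ≤ μ ^ Z.s := one_le_pow₀ hμ
      nlinarith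
    have h3 : 0 ≤ ((KD A D (n + Z.s)).card : ℝ) / (μ ^ Z.s * (KD A D n).card) := by positivity
    rw [abs_le]
    constructor <;> linarith
  have htriv2 : ∀ (k : ℕ) (E : List P → P → Prop),
      |((KE A D E k (n + Z.s)).card : ℝ) / (KD A D (n + Z.s)).card -
          ((KE A D E k n).card : ℝ) / (KD A D n).card| ≤ 1 := by
    intro k E
    have h1 : ∀ m, 0 ≤ ((KE A D E k m).card : ℝ) / (KD A D m).card ∧
        ((KE A D E k m).card : ℝ) / (KD A D m).card ≤ 1 := by
      intro m
      refine ⟨by positivity, ?_⟩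
      exact div_le_one_of_le₀ (KE_le D E k m) (Nat.cast_nonneg _)
    have h2 := h1 n
    have h3 := h1 (n + Z.s)
    rw [abs_le]
    constructor <;> linarith
  have hbig : n ≤ N ∨ 1 / 6 < R * rt L n → 82 ≤ (600 * R + 82 * (√(N : ℝ) / Real.log 2)) * rt L n := by
    intro h0
    rcases h0 with h0 | h0
    · have h1 := rt_lower (L := L) hn h0
      have h2 : 82 ≤ 82 * (√(N : ℝ) / Real.log 2) * rt L n := by
        have h3 : 1 ≤ √(N : ℝ) / Real.log 2 * rt L n := by
          calc (1 : ℝ) = √(N : ℝ) / Real.log 2 * (Real.log 2 / √(N : ℝ)) := by field_simp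
            _ ≤ _ := mul_le_mul_of_nonneg_left h1 (by positivity)
        nlinarith
      have h3 : 0 ≤ 600 * R * rt L n := by positivity
      nlinarith
    · have h3 : 0 ≤ 82 * (√(N : ℝ) / Real.log 2) * rt L n := by positivity
      nlinarith
  by_cases hgood : n ≤ N ∨ 1 / 6 < R * rt L n
  · have h1 := hbig hgood
    exact ⟨htriv1.trans h1, fun k _ E => (htriv2 k E).trans (by linarith)⟩
  rw [not_or, not_le, not_lt] at hgood
  obtain ⟨g1, g2⟩ := hgood
  have hn1 : n1 ≤ n := by omega
  have hmain : |((KD A D (n + Z.s)).card : ℝ) / (μ ^ Z.s * (KD A D n).card) - 1| ≤ R * rt L n := by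
    have h1 := h n hn1 (fun _ _ x => x ∈ D) 0 (by omega) L hL0 hL (by linarith)
    rw [pn_ratio hμ] at h1
    exact h1
  have hC : R * rt L n ≤ (600 * R + 82 * (√(N : ℝ) / Real.log 2)) * rt L n := by
    refine mul_le_mul_of_nonneg_right ?_ hrt
    have : 0 < 82 * (√(N : ℝ) / Real.log 2) := by positivity
    linarith
  refine ⟨hmain.trans hC, fun k hk E => ?_⟩
  -- one of the two events has probability at least one half
  have key : ∀ E : List P → P → Prop, ((KD A D n).card : ℝ) / 2 ≤ (KE A D E k n).card →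
      |((KE A D E k (n + Z.s)).card : ℝ) / (KD A D (n + Z.s)).card -
          ((KE A D E k n).card : ℝ) / (KD A D n).card| ≤ 48 * (R * rt L n) := by
    intro E hE
    by_cases hx : 1 / 48 < R * rt L n
    · refine (htriv2 k E).trans ?_
      linarith
    rw [not_lt] at hx
    have h1 : Real.exp (-(L + Real.log 2)) ≤
        pn A μ (fun η e x => x ∈ D ∧ E η e) k n := by
      unfold pn
      rw [← KE_eq Z, neg_add, Real.exp_add, Real.exp_neg (Real.log 2), Real.exp_log (by norm_num)]
      calc Real.exp (-L) * (2 : ℝ)⁻¹ ≤ ((KD A D n).card : ℝ) / μ ^ n * (2 : ℝ)⁻¹ :=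
            mul_le_mul_of_nonneg_right hL (by norm_num)
        _ = ((KD A D n).card : ℝ) / 2 / μ ^ n := by ring
        _ ≤ _ := div_le_div_of_nonneg_right hE (by positivity)
    have h2 := rt_log2 hL0 hn
    have h3 : R * rt (L + Real.log 2) n ≤ 3 * (R * rt L n) := by
      calc R * rt (L + Real.log 2) n ≤ R * (3 * rt L n) := mul_le_mul_of_nonneg_left h2 hR.le
        _ = _ := by ring
    have h4 := h n hn1 (fun η e x => x ∈ D ∧ E η e) k hk (L + Real.log 2) (by linarith) h1
      (by linarith)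
    rw [pn_ratio hμ, ← KE_eq Z, ← KE_eq Z] at h4
    have hE0 : (0 : ℝ) < (KE A D E k n).card := by linarith
    have h5 := frac (μ := μ ^ Z.s) (by positivity) hK0 hE0 (KE_le D E k n)
      (x := R * rt L n) (by positivity) (by linarith) (h4.trans h3) hmain
    linarith [show 0 ≤ R * rt L n by positivity]
  have hfin : |((KE A D E k (n + Z.s)).card : ℝ) / (KD A D (n + Z.s)).card -
          ((KE A D E k n).card : ℝ) / (KD A D n).card| ≤ 48 * (R * rt L n) := by
    by_cases hE : ((KD A D n).card : ℝ) / 2 ≤ (KE A D E k n).card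
    · exact key E hE
    · have h1 := card_compl (A := A) D E k n
      have h2 := card_compl (A := A) D E k (n + Z.s)
      have h3 := key (fun η e => ¬ E η e) (by linarith [not_le.1 hE])
      by_cases h0 : ((KD A D (n + Z.s)).card : ℝ) = 0
      · exfalso
        rw [h0, zero_div, zero_sub, abs_neg, abs_one] at hmain
        linarith
      · have e1 : ((KE A D (fun η e => ¬ E η e) k (n + Z.s)).card : ℝ) /
            (KD A D (n + Z.s)).card =
            1 - ((KE A D E k (n + Z.s)).card : ℝ) / (KD A D (n + Z.s)).card := by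
          rw [← h2]
          rw [← h2] at h0
          field_simp
          ring
        have e2 : ((KE A D (fun η e => ¬ E η e) k n).card : ℝ) / (KD A D n).card =
            1 - ((KE A D E k n).card : ℝ) / (KD A D n).card := by
          rw [← h1]
          have h0' := hK0.ne'
          rw [← h1] at h0'
          field_simp
          ring
        rw [e1, e2] at h3
        have e3 : 1 - ((KE A D E k (n + Z.s)).card : ℝ) / (KD A D (n + Z.s)).card -
            (1 - ((KE A D E k n).card : ℝ) / (KD A D n).card) =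
            -(((KE A D E k (n + Z.s)).card : ℝ) / (KD A D (n + Z.s)).card -
              ((KE A D E k n).card : ℝ) / (KD A D n).card) := by ring
        rw [e3, abs_neg] at h3
        exact h3
  refine hfin.trans ?_
  have h1 : 0 ≤ 82 * (√(N : ℝ) / Real.log 2) * rt L n := by positivity
  have h2 : 0 ≤ R * rt L n := by positivity
  nlinarith

/-- **ratios for events in domains, uniformly** -/
theorem events (G : Growth Z μ K) (H : Hom A) (hs2 : Z.s ≤ 2) : ∃ C : ℝ, 0 < C ∧
    ∀ n : ℕ, 2 ≤ n → ∀ (D : Set P) (k : ℕ), 8 * k ≤ n → ∀ (E : List P → P → Prop) (L : ℝ), 0 ≤ L →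
      Real.exp (-L) ≤ ((KE A D E k n).card : ℝ) / μ ^ n → C * rt L n ≤ 1 →
      |((KE A D E k (n + Z.s)).card : ℝ) / (μ ^ Z.s * (KE A D E k n).card) - 1| ≤ C * rt L n := by
  obtain ⟨R, hR, n1, h⟩ := rateN G H hs2
  have hμ := G.hμ
  have hl2 : 0 < Real.log 2 := Real.log_pos (by norm_num)
  obtain ⟨N, hN⟩ : ∃ N : ℕ, N = n1 + 2 := ⟨_, rfl⟩
  have hN0 : 0 < √(N : ℝ) := Real.sqrt_pos.2 (by rw [hN]; positivity)
  refine ⟨2 * R + 2 * (√(N : ℝ) / Real.log 2), by positivity, fun n hn D k hk E L hL0 hL hC => ?_⟩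
  have hrt := rt_nonneg L n
  have h2 : 0 ≤ R * rt L n := by positivity
  have h3 : 0 ≤ √(N : ℝ) / Real.log 2 * rt L n := by positivity
  have hnN : N < n := by
    by_contra hc
    have h1 := rt_lower (L := L) hn (not_lt.1 hc)
    have h4 : 1 ≤ √(N : ℝ) / Real.log 2 * rt L n := by
      calc (1 : ℝ) = √(N : ℝ) / Real.log 2 * (Real.log 2 / √(N : ℝ)) := by field_simp
        _ ≤ _ := mul_le_mul_of_nonneg_left h1 (by positivity)
    nlinarith
  have h4 := h n (by omega) (fun η e x => x ∈ D ∧ E η e) k hk L hL0 (by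
    unfold pn
    rw [← KE_eq Z]
    exact hL) (by nlinarith)
  rw [pn_ratio hμ, ← KE_eq Z, ← KE_eq Z] at h4
  refine h4.trans ?_
  nlinarith

/-- **Kesten's inequality for events in domains, uniformly** -/
theorem kesE (G : Growth Z μ K) (H : Hom A) :
    ∃ (C θ : ℝ), 0 < C ∧ 0 < θ ∧ θ < 1 ∧
    ∀ (D : Set P) (E : List P → P → Prop) (k n : ℕ), C ≤ n → 2 * k ≤ n →
      (θ * μ) ^ (n + Z.s) ≤ ((KE A D E k (n + Z.s)).card : ℝ) →
      ((KE A D E k (n + Z.s)).card : ℝ) ^ 2 ≤
        (KE A D E k n).card * (KE A D E k (n + Z.s + Z.s)).card * (1 + C / n) := by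
  obtain ⟨D0, θ, N, hD, hθ0, hθ1, hN, h⟩ := kesP G H
  refine ⟨D0 + N, θ, ?_, hθ0, hθ1, fun D E k n hn hk hth => ?_⟩
  · have : (1 : ℝ) ≤ N := by exact_mod_cast hN
    linarith
  · rw [KE_eq Z, KE_eq Z, KE_eq Z] at *
    have hNn : N ≤ n := by
      have : (N : ℝ) ≤ n := by linarith
      exact_mod_cast this
    have h1 := h (fun η e x => x ∈ D ∧ E η e) k n hNn hk hth
    refine h1.trans (mul_le_mul_of_nonneg_left ?_ (by positivity))
    have hn0 : (0 : ℝ) < n := by
      have : 0 < n := by omega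
      exact_mod_cast this
    have h2 : D0 / n ≤ (D0 + N) / n := div_le_div_of_nonneg_right (by
      have : (0 : ℝ) ≤ N := Nat.cast_nonneg N
      linarith) hn0.le
    linarith

end Q38.RL
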