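import Pool.Agent.Q38.RL.Low

/-!
The results for walks as functions.
-/

set_option autoImplicit false

namespace Q38.RL

open Finset Filter Topology TH966.AK Q294.Rs
open scoped Classical

variable {A : P → P → Prop} {Z : Rule A} {μ K : ℝ}

theorem card_filter_wks (Z : Rule A) (Q : List P → Prop) [DecidablePred Q] (n : ℕ) :
    ((Kw A n).filter Q).card = Set.ncard {f : Fin (n + 1) → P | f ∈ wks A n ∧ Q (List.ofFn f)} := by
  rw [← Set.ncard_coe_finset, ← Set.ncard_image_of_injective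
    {f : Fin (n + 1) → P | f ∈ wks A n ∧ Q (List.ofFn f)} List.ofFn_injective]
  congr 1
  ext w
  rw [Finset.mem_coe, mem_filter, ← Finset.mem_coe, ← image_wks Z n, Set.mem_image, Set.mem_image]
  constructor
  · rintro ⟨⟨f, hf, rfl⟩, h2⟩
    exact ⟨f, ⟨hf, h2⟩, rfl⟩
  · rintro ⟨f, ⟨hf, hQ⟩, rfl⟩
    exact ⟨⟨f, hf, rfl⟩, hQ⟩

/-- walks as functions, in a domain -/
def wD (A : P → P → Prop) (D : Set P) (n : ℕ) : Set (Fin (n + 1) → P) :=
  {ω | ω 0 = 0 ∧ Function.Injective ω ∧ (∀ i : Fin n, A (ω i.castSucc) (ω i.succ)) ∧ ∀ i, ω i ∈ D}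

theorem mem_wD {D : Set P} {n : ℕ} {ω : Fin (n + 1) → P} :
    ω ∈ wD A D n ↔ ω ∈ wks A n ∧ ∀ i, ω i ∈ D := by
  unfold wD wks
  simp only [Set.mem_ofPred_eq]
  tauto

theorem card_KD (Z : Rule A) (D : Set P) (n : ℕ) : (KD A D n).card = (wD A D n).ncard := by
  unfold KD
  rw [card_filter_wks Z]
  congr 1
  ext f
  rw [mem_wD, Set.mem_ofPred_eq]
  refine and_congr Iff.rfl ?_
  constructor
  · intro h i
    exact h _ (by rw [List.mem_ofFn]; exact ⟨i, rfl⟩)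
  · intro h x hx
    rw [List.mem_ofFn] at hx
    obtain ⟨i, rfl⟩ := hx
    exact h i

/-- events for the beginning and the last point, on lists -/
def El {m : ℕ} (E : Set ((Fin (m + 1) → P) × P)) (η : List P) (e : P) : Prop :=
  ∃ g : Fin (m + 1) → P, η = List.ofFn g ∧ (g, e) ∈ E

theorem take_ofFn {m n : ℕ} (h : m ≤ n) (f : Fin (n + 1) → P) :
    (List.ofFn f).take (m + 1) = List.ofFn (fun i : Fin (m + 1) => f (Fin.ofNat (n + 1) i)) := by
  apply List.ext_getElem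
  · simp; omega
  · intro i h1 h2
    rw [List.getElem_take, List.getElem_ofFn, List.getElem_ofFn]
    congr 1
    apply Fin.ext
    simp only [Fin.ofNat_eq_cast, Fin.val_natCast]
    rw [List.length_ofFn] at h2
    exact (Nat.mod_eq_of_lt (by omega)).symm

/-- the walks in a domain with an event for the first `m` steps and the last point -/
def wE (A : P → P → Prop) (D : Set P) (n m : ℕ) (E : Set ((Fin (m + 1) → P) × P)) :
    Set (Fin (n + 1) → P) :=
  {ω ∈ wD A D n | (fun i : Fin (m + 1) => ω (Fin.ofNat (n + 1) i), ω (Fin.last n)) ∈ E}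

theorem card_KE (Z : Rule A) (D : Set P) {m n : ℕ} (h : m ≤ n)
    (E : Set ((Fin (m + 1) → P) × P)) : (KE A D (El E) m n).card = (wE A D n m E).ncard := by
  unfold KE wE
  rw [card_filter_wks Z]
  congr 1
  ext f
  rw [Set.mem_ofPred_eq, Set.mem_ofPred_eq, mem_wD, take_ofFn h, lst_ofFn, and_assoc]
  refine and_congr Iff.rfl (and_congr ?_ ?_)
  · constructor
    · intro h i
      exact h _ (by rw [List.mem_ofFn]; exact ⟨i, rfl⟩)
    · intro h x hx
      rw [List.mem_ofFn] at hx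
      obtain ⟨i, rfl⟩ := hx
      exact h i
  · constructor
    · rintro ⟨g, hg, hE⟩
      rw [List.ofFn_injective hg]
      exact hE
    · intro hE
      exact ⟨_, rfl, hE⟩

/-- bridges, as functions -/
def wB (A : P → P → Prop) (h : P → ℤ) (n : ℕ) : Set (Fin (n + 1) → P) :=
  {ω ∈ wD A Set.univ n | ∀ i, (i ≠ 0 → 0 < h (ω i)) ∧ h (ω i) ≤ h (ω (Fin.last n))}

/-- bridges, relation -/
def Fb (h : P → ℤ) (_ : List P) (e x : P) : Prop := (x = 0 ∨ 0 < h x) ∧ h x ≤ h e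

theorem card_Fb (Z : Rule A) (h : P → ℤ) (n : ℕ) : (KP A (Fb h) 0 n).card = (wB A h n).ncard := by
  unfold KP
  rw [card_filter_wks Z]
  congr 1
  ext f
  unfold wB
  rw [Set.mem_ofPred_eq, Set.mem_ofPred_eq, mem_wD, lst_ofFn]
  simp only [Set.mem_univ, implies_true, and_true]
  refine and_congr_right fun hf => ?_
  obtain ⟨f0, finj, -⟩ := hf
  constructor
  · intro hx i
    have h1 := hx (f i) (by rw [List.mem_ofFn]; exact ⟨i, rfl⟩)
    refine ⟨fun hi => ?_, h1.2⟩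
    rcases h1.1 with h2 | h2
    · exact absurd (finj (h2.trans f0.symm)) hi
    · exact h2
  · intro hx x hx'
    rw [List.mem_ofFn] at hx'
    obtain ⟨i, rfl⟩ := hx'
    refine ⟨?_, (hx i).2⟩
    by_cases hi : i = 0
    · left; rw [hi, f0]
    · exact Or.inr ((hx i).1 hi)

theorem rt_log {K : ℝ} (hK : 0 ≤ K) {n : ℕ} (hn : 1 ≤ n) :
    rt (K * Real.log n ^ 2) n = (1 + √K) * (Real.log n / √(n : ℝ)) := by
  unfold rt
  have h0 : 0 ≤ Real.log (n : ℝ) := Real.log_natCast_nonneg n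
  rw [Real.sqrt_mul hK, Real.sqrt_sq h0]
  ring

/-- the numbers -/
theorem finalA (G : Growth Z μ K) (H : Hom A) (hs2 : Z.s ≤ 2) :
    ∃ C θ : ℝ, 0 < C ∧ 0 < θ ∧ θ < 1 ∧
    (∀ n m : ℕ, C ≤ n → 2 * m ≤ n → ∀ (D : Set P) (E : Set ((Fin (m + 1) → P) × P)),
      (θ * μ) ^ (n + Z.s) ≤ ((wE A D (n + Z.s) m E).ncard : ℝ) →
      ((wE A D (n + Z.s) m E).ncard : ℝ) ^ 2 ≤
        (wE A D n m E).ncard * (wE A D (n + Z.s + Z.s) m E).ncard * (1 + C / n)) ∧
    (∀ n m : ℕ, 2 ≤ n → 8 * m ≤ n → ∀ (D : Set P) (E : Set ((Fin (m + 1) → P) × P)),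
      0 < ((wE A D n m E).ncard : ℝ) →
      C * ((Real.log n + √(-Real.log (((wE A D n m E).ncard : ℝ) / (wD A Set.univ n).ncard))) /
          √(n : ℝ)) ≤ 1 →
      |((wE A D (n + Z.s) m E).ncard : ℝ) / (μ ^ Z.s * (wE A D n m E).ncard) - 1| ≤
        C * ((Real.log n + √(-Real.log (((wE A D n m E).ncard : ℝ) / (wD A Set.univ n).ncard))) /
          √(n : ℝ))) := by
  have hμ := G.hμ
  have hμ0 : 0 < μ := by linarith
  obtain ⟨C1, θ, hC1, hθ0, hθ1, hk⟩ := kesE G H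
  obtain ⟨C2, hC2, he⟩ := events G H hs2
  have huniv : ∀ n, (wD A Set.univ n).ncard = (Kw A n).card := by
    intro n
    rw [← card_KD Z]
    unfold KD
    simp
  refine ⟨C1 + C2, θ, by positivity, hθ0, hθ1, ?_, ?_⟩
  · intro n m hn hm D E hth
    have h1 := hk D (El E) m n (by linarith) hm
    rw [card_KE Z _ (by omega), card_KE Z _ (by omega), card_KE Z _ (by omega)] at h1
    refine (h1 hth).trans (mul_le_mul_of_nonneg_left ?_ (by positivity))
    have : C1 / (n : ℝ) ≤ (C1 + C2) / n :=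
      div_le_div_of_nonneg_right (by linarith) (Nat.cast_nonneg n)
    linarith
  · intro n m hn hm D E hE hr
    have hn0 : (0 : ℝ) < (wD A Set.univ n).ncard := by
      rw [huniv]
      exact lt_of_lt_of_le (by positivity) (G.low n)
    obtain ⟨p, hp⟩ : ∃ p : ℝ, p = ((wE A D n m E).ncard : ℝ) / (wD A Set.univ n).ncard := ⟨_, rfl⟩
    have hp0 : 0 < p := by rw [hp]; positivity
    have hp1 : p ≤ 1 := by
      rw [hp, div_le_one hn0, huniv, ← card_KE Z _ (by omega)]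
      unfold KE
      exact_mod_cast card_le_card (filter_subset _ _)
    have hL : 0 ≤ -Real.log p := by
      have := Real.log_nonpos hp0.le hp1
      linarith
    rw [← hp] at hr ⊢
    have hr' : (Real.log n + √(-Real.log p)) / √(n : ℝ) = rt (-Real.log p) n := rfl
    rw [hr'] at hr ⊢
    have hrt := rt_nonneg (-Real.log p) n
    have h1 := he n hn D m hm (El E) (-Real.log p) hL (by
      rw [neg_neg, Real.exp_log hp0, hp, card_KE Z _ (by omega)]
      refine div_le_div_of_nonneg_left (Nat.cast_nonneg _) (by positivity) ?_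
      rw [huniv]
      exact G.low n) (by nlinarith)
    rw [card_KE Z _ (by omega), card_KE Z _ (by omega)] at h1
    exact h1.trans (mul_le_mul_of_nonneg_right (by linarith) hrt)

/-- everything -/
theorem finalB (G : Growth Z μ K) (H : Hom A) (hs2 : Z.s ≤ 2) (h : P → ℤ) (h0 : h 0 = 0)
    (hlow : ∃ K : ℝ, 0 ≤ K ∧ ∀ n : ℕ, 2 ≤ n →
      μ ^ n * Real.exp (-(K * Real.log n ^ 2)) ≤ ((wB A h n).ncard : ℝ)) :
    ∃ C K : ℝ,
    (∀ n : ℕ, 2 ≤ n → ∀ D : Set P, 0 < ((wD A D n).ncard : ℝ) →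
      |((wD A D (n + Z.s)).ncard : ℝ) / (μ ^ Z.s * (wD A D n).ncard) - 1| ≤
        C * ((Real.log n + √(-Real.log (((wD A D n).ncard : ℝ) / (wD A Set.univ n).ncard))) /
          √(n : ℝ)) ∧
      ∀ m : ℕ, 8 * m ≤ n → ∀ E : Set ((Fin (m + 1) → P) × P),
        |((wE A D (n + Z.s) m E).ncard : ℝ) / (wD A D (n + Z.s)).ncard -
          ((wE A D n m E).ncard : ℝ) / (wD A D n).ncard| ≤
        C * ((Real.log n + √(-Real.log (((wD A D n).ncard : ℝ) / (wD A Set.univ n).ncard))) /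
          √(n : ℝ))) ∧
    (∀ n : ℕ, 2 ≤ n → Real.exp (-(K * Real.log n ^ 2)) ≤
      ((wD A {p | 0 ≤ h p} n).ncard : ℝ) / (wD A Set.univ n).ncard) ∧
    (∀ n : ℕ, 2 ≤ n →
      |((wD A {p | 0 ≤ h p} (n + Z.s)).ncard : ℝ) / (μ ^ Z.s * (wD A {p | 0 ≤ h p} n).ncard) - 1| ≤
        C * (Real.log n / √(n : ℝ)) ∧
      (∀ m : ℕ, 8 * m ≤ n → ∀ E : Set ((Fin (m + 1) → P) × P),
        |((wE A {p | 0 ≤ h p} (n + Z.s) m E).ncard : ℝ) / (wD A {p | 0 ≤ h p} (n + Z.s)).ncard -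
          ((wE A {p | 0 ≤ h p} n m E).ncard : ℝ) / (wD A {p | 0 ≤ h p} n).ncard| ≤
        C * (Real.log n / √(n : ℝ))) ∧
      |((wB A h (n + Z.s)).ncard : ℝ) / (μ ^ Z.s * (wB A h n).ncard) - 1| ≤
        C * (Real.log n / √(n : ℝ))) := by
  have hμ := G.hμ
  have hμ0 : 0 < μ := by linarith
  obtain ⟨C1, hC1, hdom⟩ := domains G H hs2
  obtain ⟨R, hR, n1, hrate⟩ := rateN G H hs2
  obtain ⟨K1, hK1, hl⟩ := hlow
  obtain ⟨K2, hK2, hgr⟩ : ∃ K2 : ℝ, 0 ≤ K2 ∧ ∀ n : ℕ, 2 ≤ n →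
      ((Kw A n).card : ℝ) ≤ μ ^ n * Real.exp (K2 * Real.log n ^ 2) := ⟨K, G.hK, G.up⟩
  have huniv : ∀ n, (wD A Set.univ n).ncard = (Kw A n).card := by
    intro n
    rw [← card_KD Z]
    unfold KD
    simp
  -- bridges are half-plane walks
  have hbh : ∀ n, ((wB A h n).ncard : ℝ) ≤ ((wD A {p | 0 ≤ h p} n).ncard : ℝ) := by
    intro n
    have hfin : (wD A {p | 0 ≤ h p} n).Finite := by
      have h1 : (List.ofFn '' wks A n).Finite := by
        rw [image_wks Z n]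
        exact Finset.finite_toSet _
      have h2 : (wks A n).Finite := h1.of_finite_image List.ofFn_injective.injOn
      exact h2.subset fun ω hω => (mem_wD.1 hω).1
    have hsub : wB A h n ⊆ wD A {p | 0 ≤ h p} n := by
      intro ω hω
      unfold wB at hω
      rw [Set.mem_ofPred_eq, mem_wD] at hω
      obtain ⟨⟨h1, -⟩, h2⟩ := hω
      rw [mem_wD]
      refine ⟨h1, fun i => ?_⟩
      rw [Set.mem_ofPred_eq]
      by_cases hi : i = 0
      · rw [hi, h1.1, h0]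
      · exact ((h2 i).1 hi).le
    exact_mod_cast Set.ncard_le_ncard hsub hfin
  -- the bridges
  have hbr : ∃ C2 : ℝ, ∀ n : ℕ, 2 ≤ n →
      |((wB A h (n + Z.s)).ncard : ℝ) / (μ ^ Z.s * (wB A h n).ncard) - 1| ≤
        C2 * (Real.log n / √(n : ℝ)) := by
    refine all_of_eventually (R := R * (1 + √K1)) g_pos ?_
    have t1 : Tendsto (fun k : ℕ => R * (1 + √K1) * (Real.log k / √(k : ℝ))) atTop (𝓝 0) := by
      have := log_sq_tendsto.const_mul (R * (1 + √K1))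
      rwa [mul_zero] at this
    filter_upwards [t1.eventually_lt_const (show (0 : ℝ) < 1 / 2 by norm_num),
      eventually_ge_atTop (n1 + 2)] with n e1 hn
    have hrt := rt_log hK1 (show 1 ≤ n by omega)
    have h1 := hrate n (by omega) (Fb h) 0 (by omega) (K1 * Real.log n ^ 2) (by positivity) (by
      unfold pn
      rw [card_Fb Z, le_div_iff₀ (by positivity), mul_comm]
      exact hl n (by omega)) (by rw [hrt, ← mul_assoc]; exact e1.le)
    rw [pn_ratio hμ, card_Fb Z, card_Fb Z, hrt, ← mul_assoc] at h1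
    exact h1
  obtain ⟨C2, hC2⟩ := hbr
  -- the half-plane
  have hhalf : ∀ n : ℕ, 2 ≤ n → Real.exp (-(K1 * Real.log n ^ 2)) ≤
      ((KD A {p | 0 ≤ h p} n).card : ℝ) / μ ^ n := by
    intro n hn
    rw [le_div_iff₀ (by positivity), mul_comm, card_KD Z]
    exact (hl n hn).trans (hbh n)
  obtain ⟨C, hC⟩ : ∃ C : ℝ, C = C1 * (1 + √K1) + |C2| := ⟨_, rfl⟩
  have hCC1 : C1 ≤ C := by
    rw [hC]
    nlinarith [mul_nonneg hC1.le (Real.sqrt_nonneg K1), abs_nonneg C2]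
  have hCC : C1 * (1 + √K1) ≤ C := by rw [hC]; linarith [abs_nonneg C2]
  have hCC2 : C2 ≤ C := by
    rw [hC]
    have h1 : 0 ≤ C1 * (1 + √K1) := by positivity
    linarith [le_abs_self C2]
  refine ⟨C, K1 + K2, ?_, ?_, ?_⟩
  · intro n hn D hD
    have hn0 : (0 : ℝ) < (wD A Set.univ n).ncard := by
      rw [huniv]
      exact lt_of_lt_of_le (by positivity) (G.low n)
    obtain ⟨p, hp⟩ : ∃ p : ℝ, p = ((wD A D n).ncard : ℝ) / (wD A Set.univ n).ncard := ⟨_, rfl⟩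
    have hp0 : 0 < p := by rw [hp]; positivity
    have hp1 : p ≤ 1 := by
      rw [hp, div_le_one hn0, huniv, ← card_KD Z]
      unfold KD
      exact_mod_cast card_le_card (filter_subset _ _)
    have hL : 0 ≤ -Real.log p := by
      have := Real.log_nonpos hp0.le hp1
      linarith
    have h1 := hdom n hn D (-Real.log p) hL (by
      rw [neg_neg, Real.exp_log hp0, hp, card_KD Z]
      refine div_le_div_of_nonneg_left (Nat.cast_nonneg _) (by positivity) ?_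
      rw [huniv]
      exact G.low n)
    rw [← hp]
    have hr := rt_nonneg (-Real.log p) n
    have h2 : C1 * rt (-Real.log p) n ≤ C * rt (-Real.log p) n :=
      mul_le_mul_of_nonneg_right hCC1 hr
    refine ⟨?_, fun m hm E => ?_⟩
    · have h3 := h1.1
      rw [card_KD Z, card_KD Z] at h3
      exact h3.trans h2
    · have h3 := h1.2 m hm (El E)
      rw [card_KD Z, card_KD Z, card_KE Z _ (by omega), card_KE Z _ (by omega)] at h3
      exact h3.trans h2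
  · intro n hn
    have hn0 : (0 : ℝ) < (wD A Set.univ n).ncard := by
      rw [huniv]
      exact lt_of_lt_of_le (by positivity) (G.low n)
    rw [le_div_iff₀ hn0]
    have h1 := (hl n hn).trans (hbh n)
    refine le_trans ?_ h1
    rw [huniv]
    calc Real.exp (-((K1 + K2) * Real.log n ^ 2)) * ((Kw A n).card : ℝ) ≤
          Real.exp (-((K1 + K2) * Real.log n ^ 2)) * (μ ^ n * Real.exp (K2 * Real.log n ^ 2)) :=
          mul_le_mul_of_nonneg_left (hgr n hn) (Real.exp_pos _).le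
      _ = μ ^ n * (Real.exp (-((K1 + K2) * Real.log n ^ 2)) * Real.exp (K2 * Real.log n ^ 2)) := by
          ring
      _ = _ := by
          rw [← Real.exp_add]
          congr 2
          ring
  · intro n hn
    have hrt := rt_log hK1 (show 1 ≤ n by omega)
    have h1 := hdom n hn {p | 0 ≤ h p} (K1 * Real.log n ^ 2) (by positivity) (hhalf n hn)
    rw [hrt, ← mul_assoc] at h1
    have hg := (g_pos n hn).le
    have h2 : C1 * (1 + √K1) * (Real.log n / √(n : ℝ)) ≤ C * (Real.log n / √(n : ℝ)) :=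
      mul_le_mul_of_nonneg_right hCC hg
    refine ⟨?_, fun m hm E => ?_, ?_⟩
    · have h3 := h1.1
      rw [card_KD Z, card_KD Z] at h3
      exact h3.trans h2
    · have h3 := h1.2 m hm (El E)
      rw [card_KD Z, card_KD Z, card_KE Z _ (by omega), card_KE Z _ (by omega)] at h3
      exact h3.trans h2
    · exact (hC2 n hn).trans (mul_le_mul_of_nonneg_right hCC2 hg)

/-- the rate -/
noncomputable def rate (p : ℝ) (n : ℕ) : ℝ := (Real.log n + √(-Real.log p)) / √(n : ℝ)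

theorem rate_nonneg (p : ℝ) (n : ℕ) : 0 ≤ rate p n := rt_nonneg (-Real.log p) n

/-- everything -/
theorem final (G : Growth Z μ K) (H : Hom A) (hs2 : Z.s ≤ 2) (h : P → ℤ) (h0 : h 0 = 0)
    (hlow : ∃ K : ℝ, 0 ≤ K ∧ ∀ n : ℕ, 2 ≤ n →
      μ ^ n * Real.exp (-(K * Real.log n ^ 2)) ≤ ((wB A h n).ncard : ℝ)) :
    ∃ C K θ : ℝ, 0 < θ ∧ θ < 1 ∧
    (∀ n m : ℕ, C ≤ n → 2 * m ≤ n → ∀ (D : Set P) (E : Set ((Fin (m + 1) → P) × P)),
      (θ * μ) ^ (n + Z.s) ≤ ((wE A D (n + Z.s) m E).ncard : ℝ) →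
      ((wE A D (n + Z.s) m E).ncard : ℝ) ^ 2 ≤
        (wE A D n m E).ncard * (wE A D (n + Z.s + Z.s) m E).ncard * (1 + C / n)) ∧
    (∀ n m : ℕ, 2 ≤ n → 8 * m ≤ n → ∀ (D : Set P) (E : Set ((Fin (m + 1) → P) × P)),
      0 < ((wE A D n m E).ncard : ℝ) →
      C * rate (((wE A D n m E).ncard : ℝ) / (wD A Set.univ n).ncard) n ≤ 1 →
      |((wE A D (n + Z.s) m E).ncard : ℝ) / (μ ^ Z.s * (wE A D n m E).ncard) - 1| ≤
        C * rate (((wE A D n m E).ncard : ℝ) / (wD A Set.univ n).ncard) n) ∧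
    (∀ n : ℕ, 2 ≤ n → ∀ D : Set P, 0 < ((wD A D n).ncard : ℝ) →
      |((wD A D (n + Z.s)).ncard : ℝ) / (μ ^ Z.s * (wD A D n).ncard) - 1| ≤
        C * rate (((wD A D n).ncard : ℝ) / (wD A Set.univ n).ncard) n ∧
      ∀ m : ℕ, 8 * m ≤ n → ∀ E : Set ((Fin (m + 1) → P) × P),
        |((wE A D (n + Z.s) m E).ncard : ℝ) / (wD A D (n + Z.s)).ncard -
          ((wE A D n m E).ncard : ℝ) / (wD A D n).ncard| ≤
        C * rate (((wD A D n).ncard : ℝ) / (wD A Set.univ n).ncard) n) ∧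
    (∀ n : ℕ, 2 ≤ n → Real.exp (-(K * Real.log n ^ 2)) ≤
      ((wD A {p | 0 ≤ h p} n).ncard : ℝ) / (wD A Set.univ n).ncard) ∧
    (∀ n : ℕ, 2 ≤ n →
      |((wD A {p | 0 ≤ h p} (n + Z.s)).ncard : ℝ) / (μ ^ Z.s * (wD A {p | 0 ≤ h p} n).ncard) - 1| ≤
        C * (Real.log n / √(n : ℝ)) ∧
      (∀ m : ℕ, 8 * m ≤ n → ∀ E : Set ((Fin (m + 1) → P) × P),
        |((wE A {p | 0 ≤ h p} (n + Z.s) m E).ncard : ℝ) / (wD A {p | 0 ≤ h p} (n + Z.s)).ncard -
          ((wE A {p | 0 ≤ h p} n m E).ncard : ℝ) / (wD A {p | 0 ≤ h p} n).ncard| ≤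
        C * (Real.log n / √(n : ℝ))) ∧
      |((wB A h (n + Z.s)).ncard : ℝ) / (μ ^ Z.s * (wB A h n).ncard) - 1| ≤
        C * (Real.log n / √(n : ℝ))) := by
  obtain ⟨C1, θ, hC1, hθ0, hθ1, a1, a2⟩ := finalA G H hs2
  obtain ⟨C2, K', b1, b2, b3⟩ := finalB G H hs2 h h0 hlow
  have hC2 : C2 ≤ C1 + |C2| := by linarith [le_abs_self C2]
  have hC1' : C1 ≤ C1 + |C2| := by linarith [abs_nonneg C2]
  refine ⟨C1 + |C2|, K', θ, hθ0, hθ1, ?_, ?_, ?_, b2, ?_⟩
  · intro n m hn hm D E hth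
    refine (a1 n m (by linarith) hm D E hth).trans (mul_le_mul_of_nonneg_left ?_ (by positivity))
    have : C1 / (n : ℝ) ≤ (C1 + |C2|) / n := div_le_div_of_nonneg_right hC1' (Nat.cast_nonneg n)
    linarith
  · intro n m hn hm D E hE hr
    have h1 := mul_le_mul_of_nonneg_right hC1'
      (rate_nonneg (((wE A D n m E).ncard : ℝ) / (wD A Set.univ n).ncard) n)
    exact (a2 n m hn hm D E hE (h1.trans hr)).trans h1
  · intro n hn D hD
    have h1 := mul_le_mul_of_nonneg_right hC2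
      (rate_nonneg (((wD A D n).ncard : ℝ) / (wD A Set.univ n).ncard) n)
    obtain ⟨c1, c2⟩ := b1 n hn D hD
    exact ⟨c1.trans h1, fun m hm E => (c2 m hm E).trans h1⟩
  · intro n hn
    have h1 := mul_le_mul_of_nonneg_right hC2 (g_pos n hn).le
    obtain ⟨c1, c2, c3⟩ := b3 n hn
    exact ⟨c1.trans h1, fun m hm E => (c2 m hm E).trans h1, c3.trans h1⟩

/-- everything, for equal adjacency relations -/
theorem final_eq {A' : P → P → Prop} {s : ℕ} (e : A' = A) (es : Z.s = s) (G : Growth Z μ K) (H : Hom A) (hs2 : Z.s ≤ 2) (h : P → ℤ) (h0 : h 0 = 0)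
    (hlow : ∃ K : ℝ, 0 ≤ K ∧ ∀ n : ℕ, 2 ≤ n →
      μ ^ n * Real.exp (-(K * Real.log n ^ 2)) ≤ ((wB A' h n).ncard : ℝ)) :
    ∃ C K θ : ℝ, 0 < θ ∧ θ < 1 ∧
    (∀ n m : ℕ, C ≤ n → 2 * m ≤ n → ∀ (D : Set P) (E : Set ((Fin (m + 1) → P) × P)),
      (θ * μ) ^ (n + s) ≤ ((wE A' D (n + s) m E).ncard : ℝ) →
      ((wE A' D (n + s) m E).ncard : ℝ) ^ 2 ≤
        (wE A' D n m E).ncard * (wE A' D (n + s + s) m E).ncard * (1 + C / n)) ∧
    (∀ n m : ℕ, 2 ≤ n → 8 * m ≤ n → ∀ (D : Set P) (E : Set ((Fin (m + 1) → P) × P)),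
      0 < ((wE A' D n m E).ncard : ℝ) →
      C * rate (((wE A' D n m E).ncard : ℝ) / (wD A' Set.univ n).ncard) n ≤ 1 →
      |((wE A' D (n + s) m E).ncard : ℝ) / (μ ^ s * (wE A' D n m E).ncard) - 1| ≤
        C * rate (((wE A' D n m E).ncard : ℝ) / (wD A' Set.univ n).ncard) n) ∧
    (∀ n : ℕ, 2 ≤ n → ∀ D : Set P, 0 < ((wD A' D n).ncard : ℝ) →
      |((wD A' D (n + s)).ncard : ℝ) / (μ ^ s * (wD A' D n).ncard) - 1| ≤
        C * rate (((wD A' D n).ncard : ℝ) / (wD A' Set.univ n).ncard) n ∧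
      ∀ m : ℕ, 8 * m ≤ n → ∀ E : Set ((Fin (m + 1) → P) × P),
        |((wE A' D (n + s) m E).ncard : ℝ) / (wD A' D (n + s)).ncard -
          ((wE A' D n m E).ncard : ℝ) / (wD A' D n).ncard| ≤
        C * rate (((wD A' D n).ncard : ℝ) / (wD A' Set.univ n).ncard) n) ∧
    (∀ n : ℕ, 2 ≤ n → Real.exp (-(K * Real.log n ^ 2)) ≤
      ((wD A' {p | 0 ≤ h p} n).ncard : ℝ) / (wD A' Set.univ n).ncard) ∧
    (∀ n : ℕ, 2 ≤ n →
      |((wD A' {p | 0 ≤ h p} (n + s)).ncard : ℝ) / (μ ^ s * (wD A' {p | 0 ≤ h p} n).ncard) - 1| ≤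
        C * (Real.log n / √(n : ℝ)) ∧
      (∀ m : ℕ, 8 * m ≤ n → ∀ E : Set ((Fin (m + 1) → P) × P),
        |((wE A' {p | 0 ≤ h p} (n + s) m E).ncard : ℝ) / (wD A' {p | 0 ≤ h p} (n + s)).ncard -
          ((wE A' {p | 0 ≤ h p} n m E).ncard : ℝ) / (wD A' {p | 0 ≤ h p} n).ncard| ≤
        C * (Real.log n / √(n : ℝ))) ∧
      |((wB A' h (n + s)).ncard : ℝ) / (μ ^ s * (wB A' h n).ncard) - 1| ≤
        C * (Real.log n / √(n : ℝ))) := by
  subst e
  subst es
  exact final G H hs2 h h0 hlow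

end Q38.RL
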