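import Pool.Agent.Q38.RL.Pref

/-!
Kesten's inequality for walks with conditions on the beginning, uniformly.
-/

set_option autoImplicit false

namespace Q38.RL

open Finset Filter Topology TH966.AK Q294.Rs
open scoped Classical

variable {A : P → P → Prop}

/-- the classes which are dropped are negligible -/
theorem dropped {μ θ : ℝ} (hμ : 1 ≤ μ) (hθ0 : 0 < θ) (hθ1 : θ < 1) {u : ℕ → ℝ}
    (hu0 : ∀ n, 0 ≤ u n) (hup : ∀ τ : ℝ, 0 < τ → ∃ C1 : ℝ, ∀ n : ℕ, u n ≤ C1 * ((1 + τ) * μ) ^ n) :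
    ∃ (θ' : ℝ) (N : ℕ), θ ≤ θ' ∧ 0 < θ' ∧ θ' < 1 ∧ ∀ s n k : ℕ, N ≤ n → 2 * k ≤ n →
      u k * (θ * μ) ^ (n + s - k) * n ≤ (θ' * μ) ^ (n + s) := by
  have hμ0 : 0 < μ := by linarith
  obtain ⟨τ, hτ⟩ : ∃ τ : ℝ, τ = (1 - θ) / (2 * θ) := ⟨_, rfl⟩
  have hτ0 : 0 < τ := by rw [hτ]; apply div_pos <;> linarith
  obtain ⟨κ, hκ⟩ : ∃ κ : ℝ, κ = (1 + θ) / 2 := ⟨_, rfl⟩
  have hκ0 : 0 < κ := by rw [hκ]; linarith
  have hκ1 : κ < 1 := by rw [hκ]; linarith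
  have hτκ : (1 + τ) * θ = κ := by rw [hτ, hκ]; field_simp; ring
  obtain ⟨q, hq⟩ : ∃ q : ℝ, q = √κ := ⟨_, rfl⟩
  have hq0 : 0 < q := by rw [hq]; exact Real.sqrt_pos.2 hκ0
  have hq2 : q ^ 2 = κ := by rw [hq]; exact Real.sq_sqrt hκ0.le
  have hq1 : q < 1 := by
    by_contra hc
    have : 1 ≤ q := not_lt.1 hc
    nlinarith
  have hκq : κ ≤ q := by rw [← hq2]; nlinarith
  obtain ⟨θ', hθ'⟩ : ∃ θ' : ℝ, θ' = (1 + q) / 2 := ⟨_, rfl⟩
  have h1 : q < θ' := by rw [hθ']; linarith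
  have h2 : θ' < 1 := by rw [hθ']; linarith
  have h0 : 0 < θ' := by linarith
  obtain ⟨C1, hC1⟩ := hup τ hτ0
  obtain ⟨ρ, hρ⟩ : ∃ ρ : ℝ, ρ = q / θ' := ⟨_, rfl⟩
  have hρ0 : 0 < ρ := by rw [hρ]; positivity
  have hρ1 : ρ < 1 := by rw [hρ, div_lt_one h0]; exact h1
  have ht := (tendsto_self_mul_const_pow_of_lt_one hρ0.le hρ1).const_mul |C1|
  rw [mul_zero] at ht
  obtain ⟨N, hN⟩ := eventually_atTop.1 (ht.eventually_lt_const (show (0 : ℝ) < 1 by norm_num))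
  refine ⟨θ', N, ?_, h0, h2, fun s n k hn hk => ?_⟩
  · have : θ ≤ κ := by rw [hκ]; linarith
    linarith
  obtain ⟨m, hm⟩ : ∃ m, m = n + s - k := ⟨_, rfl⟩
  rw [← hm]
  have hns : n + s = k + m := by omega
  have a1 : u k ≤ |C1| * ((1 + τ) * μ) ^ k :=
    (hC1 k).trans (mul_le_mul_of_nonneg_right (le_abs_self _) (by positivity))
  have a2 : (1 + τ) ^ k ≤ (1 + τ) ^ m := pow_le_pow_right₀ (by linarith) (by omega)
  have a3 : κ ^ m ≤ q ^ (n + s) := by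
    rw [← hq2, ← pow_mul]
    exact pow_le_pow_of_le_one hq0.le hq1.le (by omega)
  have a4 : u k * (θ * μ) ^ m ≤ |C1| * (μ ^ (n + s) * q ^ (n + s)) := by
    calc u k * (θ * μ) ^ m ≤ |C1| * ((1 + τ) * μ) ^ k * (θ * μ) ^ m :=
          mul_le_mul_of_nonneg_right a1 (by positivity)
      _ = |C1| * (μ ^ (n + s) * ((1 + τ) ^ k * θ ^ m)) := by
          rw [hns, pow_add, mul_pow, mul_pow]; ring
      _ ≤ |C1| * (μ ^ (n + s) * ((1 + τ) ^ m * θ ^ m)) := by gcongr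
      _ = |C1| * (μ ^ (n + s) * κ ^ m) := by rw [← mul_pow, hτκ]
      _ ≤ _ := by gcongr
  have a5 : |C1| * (n * ρ ^ n) < 1 := hN n hn
  have a6 : ρ ^ (n + s) ≤ ρ ^ n := pow_le_pow_of_le_one hρ0.le hρ1.le (by omega)
  have hqe : q ^ (n + s) = ρ ^ (n + s) * θ' ^ (n + s) := by
    rw [← mul_pow, hρ, div_mul_cancel₀ _ h0.ne']
  calc u k * (θ * μ) ^ m * n ≤ |C1| * (μ ^ (n + s) * q ^ (n + s)) * n :=
        mul_le_mul_of_nonneg_right a4 (by positivity)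
    _ = (|C1| * (n * ρ ^ (n + s))) * (θ' * μ) ^ (n + s) := by rw [hqe, mul_pow]; ring
    _ ≤ 1 * (θ' * μ) ^ (n + s) := by
        refine mul_le_mul_of_nonneg_right ?_ (by positivity)
        refine le_trans ?_ a5.le
        gcongr
    _ = _ := one_mul _

theorem num_step {B S X D x : ℝ} (hB : 0 ≤ B) (hD : 0 ≤ D) (hx0 : 0 < x) (hx : x ≤ 1 / 4)
    (hX : 0 ≤ X) (h1 : B * (1 - x) ≤ S) (h2 : S ^ 2 ≤ X * (1 + 2 * D * x)) :
    B ^ 2 ≤ X * (1 + (10 * D + 4) * x) := by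
  have h3 : (B * (1 - x)) ^ 2 ≤ S ^ 2 :=
    pow_le_pow_left₀ (mul_nonneg hB (by linarith)) h1 2
  have h4 : 1 ≤ (1 - x) ^ 2 * (1 + 4 * x) := by nlinarith [mul_pos hx0 hx0]
  have h5 : B ^ 2 ≤ B ^ 2 * ((1 - x) ^ 2 * (1 + 4 * x)) := le_mul_of_one_le_right (sq_nonneg _) h4
  have h6 : B ^ 2 * ((1 - x) ^ 2 * (1 + 4 * x)) = (B * (1 - x)) ^ 2 * (1 + 4 * x) := by ring
  have h7 : (B * (1 - x)) ^ 2 * (1 + 4 * x) ≤ X * (1 + 2 * D * x) * (1 + 4 * x) :=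
    mul_le_mul_of_nonneg_right (h3.trans h2) (by linarith)
  have h8 : (1 + 2 * D * x) * (1 + 4 * x) ≤ 1 + (10 * D + 4) * x := by
    nlinarith [mul_nonneg hD hx0.le]
  calc B ^ 2 ≤ X * ((1 + 2 * D * x) * (1 + 4 * x)) := by
        rw [← mul_assoc]; exact (h5.trans h6.le).trans h7
    _ ≤ _ := mul_le_mul_of_nonneg_left h8 hX

/-- **Kesten's inequality for walks with conditions on the beginning, the end and all points,
uniformly** -/
theorem kesP {Z : Rule A} {μ K : ℝ} (G : Growth Z μ K) (H : Hom A) :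
    ∃ (D θ : ℝ) (N : ℕ), 0 ≤ D ∧ 0 < θ ∧ θ < 1 ∧ 1 ≤ N ∧
    ∀ (F : List P → P → P → Prop) (k n : ℕ), N ≤ n → 2 * k ≤ n →
      (θ * μ) ^ (n + Z.s) ≤ ((KP A F k (n + Z.s)).card : ℝ) →
      ((KP A F k (n + Z.s)).card : ℝ) ^ 2 ≤
        (KP A F k n).card * (KP A F k (n + Z.s + Z.s)).card * (1 + D / n) := by
  obtain ⟨D, θ, N, hD, hθ0, hθ1, hN, h⟩ := kesR (loc_of G)
  obtain ⟨θ', N', hθθ', h0, h1, hdrop⟩ := dropped (u := fun n => ((Kw A n).card : ℝ)) G.hμ hθ0 hθ1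
    (fun _ => Nat.cast_nonneg _) G.hup
  refine ⟨10 * D + 4, θ', max (2 * N) (max N' 4), by positivity, h0, h1, ?_, ?_⟩
  · exact le_trans (by norm_num) ((le_max_right N' 4).trans (le_max_right _ _))
  intro F k n hn hk hbig
  have hn1 : 2 * N ≤ n := (le_max_left _ _).trans hn
  have hn2 : N' ≤ n := ((le_max_left N' 4).trans (le_max_right _ _)).trans hn
  have hn3 : 4 ≤ n := ((le_max_right N' 4).trans (le_max_right _ _)).trans hn
  obtain ⟨m, rfl⟩ : ∃ m, n = k + m := ⟨n - k, by omega⟩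
  have hkm : k ≤ m := by omega
  have hNm : N ≤ m := by omega
  have e1 := card_KP Z H F k m
  have e2 := card_KP Z H F k (m + Z.s)
  have e3 := card_KP Z H F k (m + Z.s + Z.s)
  simp only [← add_assoc] at e2 e3
  obtain ⟨a, ha⟩ : ∃ a : List P → ℝ, a = fun η => ((KR A (Rf H F η) m).card : ℝ) := ⟨_, rfl⟩
  obtain ⟨b, hb⟩ : ∃ b : List P → ℝ, b = fun η => ((KR A (Rf H F η) (m + Z.s)).card : ℝ) :=
    ⟨_, rfl⟩
  obtain ⟨c, hc⟩ : ∃ c : List P → ℝ,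
      c = fun η => ((KR A (Rf H F η) (m + Z.s + Z.s)).card : ℝ) := ⟨_, rfl⟩
  have ha0 : ∀ η, 0 ≤ a η := fun η => by rw [ha]; exact Nat.cast_nonneg _
  have hb0 : ∀ η, 0 ≤ b η := fun η => by rw [hb]; exact Nat.cast_nonneg _
  have hc0 : ∀ η, 0 ≤ c η := fun η => by rw [hc]; exact Nat.cast_nonneg _
  have E1 : ((KP A F k (k + m)).card : ℝ) = ∑ η ∈ Kw A k, a η := by
    rw [e1, ha]; push_cast; rfl
  have E2 : ((KP A F k (k + m + Z.s)).card : ℝ) = ∑ η ∈ Kw A k, b η := by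
    rw [e2, hb]; push_cast; rfl
  have E3 : ((KP A F k (k + m + Z.s + Z.s)).card : ℝ) = ∑ η ∈ Kw A k, c η := by
    rw [e3, hc]; push_cast; rfl
  have hkes : ∀ η, (θ * μ) ^ (m + Z.s) ≤ b η → b η ^ 2 ≤ a η * c η * (1 + D / m) := by
    intro η hη
    rw [ha, hb, hc]
    rw [hb] at hη
    exact h _ m hNm hη
  have hm0 : (0 : ℝ) < m := by
    have : 0 < m := by omega
    exact_mod_cast this
  have hn0 : (0 : ℝ) < ((k + m : ℕ) : ℝ) := by
    have : 0 < k + m := by omega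
    exact_mod_cast this
  set T := (Kw A k).filter (fun η => (θ * μ) ^ (m + Z.s) ≤ b η) with hT
  have hcs : (∑ η ∈ T, b η) ^ 2 ≤ (∑ η ∈ T, a η) * ∑ η ∈ T, c η * (1 + D / m) := by
    refine sum_sq_le_sum_mul_sum_of_sq_le_mul T (fun η _ => ha0 η)
      (fun η _ => mul_nonneg (hc0 η) (by positivity)) fun η hη => ?_
    rw [hT, mem_filter] at hη
    have := hkes η hη.2
    rw [mul_assoc] at this
    exact this
  have hTa : ∑ η ∈ T, a η ≤ ((KP A F k (k + m)).card : ℝ) := by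
    rw [E1]
    exact sum_le_sum_of_subset_of_nonneg (filter_subset _ _) fun η _ _ => ha0 η
  have hTc : ∑ η ∈ T, c η * (1 + D / m) ≤
      ((KP A F k (k + m + Z.s + Z.s)).card : ℝ) * (1 + D / m) := by
    rw [E3, ← sum_mul]
    exact mul_le_mul_of_nonneg_right
      (sum_le_sum_of_subset_of_nonneg (filter_subset _ _) fun η _ _ => hc0 η) (by positivity)
  have hxn : D / m ≤ 2 * D * (1 / ((k + m : ℕ) : ℝ)) := by
    have h3 : ((k + m : ℕ) : ℝ) ≤ 2 * m := by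
      have : k + m ≤ 2 * m := by omega
      exact_mod_cast this
    rw [mul_one_div, div_le_div_iff₀ hm0 hn0]
    nlinarith
  have hS : (∑ η ∈ T, b η) ^ 2 ≤ ((KP A F k (k + m)).card : ℝ) *
      (KP A F k (k + m + Z.s + Z.s)).card * (1 + 2 * D * (1 / ((k + m : ℕ) : ℝ))) := by
    refine hcs.trans ?_
    calc (∑ η ∈ T, a η) * ∑ η ∈ T, c η * (1 + D / m) ≤ ((KP A F k (k + m)).card : ℝ) *
          (((KP A F k (k + m + Z.s + Z.s)).card : ℝ) * (1 + D / m)) :=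
          mul_le_mul hTa hTc (sum_nonneg fun η _ => mul_nonneg (hc0 η) (by positivity))
            (Nat.cast_nonneg _)
      _ = ((KP A F k (k + m)).card : ℝ) * (KP A F k (k + m + Z.s + Z.s)).card * (1 + D / m) := by
          ring
      _ ≤ _ := by
          refine mul_le_mul_of_nonneg_left ?_ (by positivity)
          linarith
  have hrest : ∑ η ∈ (Kw A k).filter (fun η => ¬ (θ * μ) ^ (m + Z.s) ≤ b η), b η ≤
      ((Kw A k).card : ℝ) * (θ * μ) ^ (m + Z.s) := by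
    have h3 : ∑ η ∈ (Kw A k).filter (fun η => ¬ (θ * μ) ^ (m + Z.s) ≤ b η), b η ≤
        ∑ η ∈ (Kw A k).filter (fun η => ¬ (θ * μ) ^ (m + Z.s) ≤ b η), (θ * μ) ^ (m + Z.s) := by
      refine sum_le_sum fun η hη => ?_
      rw [mem_filter] at hη
      exact (not_le.1 hη.2).le
    refine h3.trans ?_
    rw [sum_const, nsmul_eq_mul]
    have hμ0 : 0 < μ := by linarith [G.hμ]
    refine mul_le_mul_of_nonneg_right ?_ (by positivity)
    exact_mod_cast card_le_card (filter_subset _ _)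
  have hsplit : ∑ η ∈ T, b η + ∑ η ∈ (Kw A k).filter (fun η => ¬ (θ * μ) ^ (m + Z.s) ≤ b η), b η =
      ((KP A F k (k + m + Z.s)).card : ℝ) := by
    rw [E2, hT]
    exact sum_filter_add_sum_filter_not _ _ _
  have hd := hdrop Z.s (k + m) k hn2 hk
  have hms : k + m + Z.s - k = m + Z.s := by omega
  rw [hms] at hd
  have hd2 : (∑ η ∈ (Kw A k).filter (fun η => ¬ (θ * μ) ^ (m + Z.s) ≤ b η), b η) *
      ((k + m : ℕ) : ℝ) ≤ ((KP A F k (k + m + Z.s)).card : ℝ) :=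
    (mul_le_mul_of_nonneg_right hrest hn0.le).trans (hd.trans hbig)
  have hx4 : 1 / ((k + m : ℕ) : ℝ) ≤ 1 / 4 := by
    rw [div_le_div_iff₀ hn0 (by norm_num)]
    have : (4 : ℝ) ≤ ((k + m : ℕ) : ℝ) := by exact_mod_cast hn3
    linarith
  have hlow : ((KP A F k (k + m + Z.s)).card : ℝ) * (1 - 1 / ((k + m : ℕ) : ℝ)) ≤
      ∑ η ∈ T, b η := by
    rw [mul_sub, mul_one, mul_one_div]
    have h4 : (∑ η ∈ (Kw A k).filter (fun η => ¬ (θ * μ) ^ (m + Z.s) ≤ b η), b η) ≤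
        ((KP A F k (k + m + Z.s)).card : ℝ) / ((k + m : ℕ) : ℝ) := by
      rw [le_div_iff₀ hn0]
      exact hd2
    linarith
  have hfin := num_step (D := D) (Nat.cast_nonneg _) hD (x := 1 / ((k + m : ℕ) : ℝ))
    (by positivity) hx4 (mul_nonneg (Nat.cast_nonneg _) (Nat.cast_nonneg _)) hlow hS
  rw [mul_one_div] at hfin
  exact hfin

end Q38.RL
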