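import Pool.Agent.Q38.RL.Abs
import Pool.Agent.TH966.AK.HexFin
import Pool.Agent.TH966.AK.HexEnd

/-!
Homogeneity of the two lattices, lower bounds for bridges and half-plane walks.
-/

set_option autoImplicit false

namespace Q38.RL

open TH966.AK

theorem hom_tri : Hom Tri.A := by
  intro v
  refine ⟨Equiv.addLeft v, by simp, fun p q => ?_⟩
  unfold Tri.A
  simp only [Equiv.coe_addLeft, add_sub_add_left_eq_sub]

theorem hom_hex : Hom Hex.A := by
  intro v
  rcases Int.even_or_odd (v.1 + v.2) with hv | hv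
  · refine ⟨Equiv.addLeft v, by simp, fun p q => ?_⟩
    rw [Hex.A_iff, Hex.A_iff]
    simp only [Equiv.coe_addLeft, Prod.fst_add, Prod.snd_add]
    rw [Int.even_iff] at hv
    omega
  · refine ⟨Equiv.subLeft v, by simp, fun p q => ?_⟩
    rw [Hex.A_iff, Hex.A_iff]
    simp only [Equiv.subLeft_apply, Prod.fst_sub, Prod.snd_sub]
    rw [Int.odd_iff] at hv
    omega

end Q38.RL

namespace Q38.RL.W

open H982 Filter Topology

variable [L : H982.Lat] {Adj : ℤ × ℤ → ℤ × ℤ → Prop} {φ : ℤ × ℤ → ℤ × ℤ} {R : ℕ → ℤ × ℤ → Prop}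

/-- bridges in the direction of the first coordinate of the word model -/
def bri (Adj : ℤ × ℤ → ℤ × ℤ → Prop) (φ : ℤ × ℤ → ℤ × ℤ) (n : ℕ) :
    Set (Fin (n + 1) → ℤ × ℤ) :=
  {f ∈ H982.walks Adj n | ∀ i, (i ≠ 0 → 0 < (φ (f i)).1) ∧ (φ (f i)).1 ≤ (φ (f (Fin.last n))).1}

theorem walks_finite (H : Coord Adj φ R) (n : ℕ) : (H982.walks Adj n).Finite := by
  by_contra hc
  have h1 : (H982.walks Adj n).ncard = 0 := Set.Infinite.ncard hc
  have h2 := ncard_walks H n
  rw [h1] at h2
  have h3 := mu_pow_le n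
  have h4 : 0 < mu ^ n := pow_pos mu_pos n
  rw [← h2] at h3
  push_cast at h3
  linarith

theorem br_card (n : ℕ) : br' n = Nat.card {w : List St // IsB w ∧ w.length = n} := by
  unfold br'
  rw [bn_eq]
  refine tsum_ind_eq_card _ ?_
  rw [← bn_eq]
  exact bn_ne_top n

theorem br_le (H : Coord Adj φ R) (n : ℕ) : br' n ≤ ((bri Adj φ n).ncard : ℝ) := by
  rw [br_card]
  have hfin : (bri Adj φ n).Finite := (walks_finite H n).subset (Set.sep_subset _ _)
  have : Finite (bri Adj φ n) := hfin
  rw [← Nat.card_coe_set_eq]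
  have key : ∀ w : List St, IsB w ∧ w.length = n →
      (fun i : Fin (n + 1) => gw φ w i) ∈ bri Adj φ n := by
    rintro w ⟨hw, hl⟩
    have hbr := hw.br
    have hsaw := hbr.saw
    have hok := hsaw.2
    have hs := saw_pf (o := 1) (Or.inl rfl) hsaw
    have hφ : ∀ i : ℕ, i ≤ n → (φ (gw φ w i)).1 = dx (w.take i) := by
      intro i hi
      rw [(gw_spec H hok i (by omega)).1]
      rfl
    refine ⟨⟨?_, ?_, ?_⟩, ?_⟩
    · exact gw_eq H (by rw [H.zero]; exact (pf_zero 1 w).symm)
    · intro i k hik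
      simp only at hik
      have h1 := (gw_spec H hok i (by omega)).1
      have h2 := (gw_spec H hok k (by omega)).1
      apply Fin.ext
      refine hs.inj i k (by omega) (by omega) ?_
      rw [← h1, ← h2, hik]
    · intro i
      exact gw_adj H hok i (by omega)
    · intro i
      have hi : (i : ℕ) ≤ n := by omega
      simp only
      rw [hφ i hi, Fin.val_last, hφ n le_rfl]
      have e : w.take n = w := List.take_of_length_le hl.le
      rw [e, hbr.dx]
      refine ⟨fun hi0 => hbr.hp _ (List.take_prefix _ _) ?_, hbr.le (List.take_prefix _ _)⟩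
      intro hc
      have h1 : (w.take i).length = 0 := by rw [hc]; rfl
      rw [List.length_take] at h1
      apply hi0
      apply Fin.ext
      show (i : ℕ) = 0
      omega
  have hle : Nat.card {w : List St // IsB w ∧ w.length = n} ≤ Nat.card (bri Adj φ n) := by
    refine Nat.card_le_card_of_injective
      (fun w : {w : List St // IsB w ∧ w.length = n} =>
        (⟨fun i : Fin (n + 1) => gw φ w.1 i, key w.1 w.2⟩ : ↑(bri Adj φ n))) ?_
    rintro ⟨w, hw, hl⟩ ⟨w', hw', hl'⟩ h
    apply Subtype.ext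
    simp only [Subtype.mk.injEq] at h
    have hok := hw.br.saw.2
    have hok' := hw'.br.saw.2
    apply pf_inj (o := 1) (Or.inl rfl) hok hok' (by omega)
    have h1 : ∀ i, i ≤ n → pf 1 w i = pf 1 w' i := by
      intro i hi
      have h2 := congrFun h ⟨i, by omega⟩
      simp only at h2
      rw [← (gw_spec H hok i (by omega)).1, ← (gw_spec H hok' i (by omega)).1, h2]
    funext i
    rcases le_total i n with hi | hi
    · exact h1 i hi
    · have h3 := h1 n le_rfl
      rw [pf_ge 1 (by omega), pf_ge 1 (by omega)] at h3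
      rw [pf_ge 1 (by omega), pf_ge 1 (by omega), h3]
  exact_mod_cast hle

/-- the lower bound for the bridges -/
theorem bri_lower (H : Coord Adj φ R) : ∃ K : ℝ, 0 ≤ K ∧ ∀ n : ℕ, 2 ≤ n →
    mu ^ n * Real.exp (-(K * Real.log n ^ 2)) ≤ ((bri Adj φ n).ncard : ℝ) := by
  obtain ⟨K, hK, h⟩ := Pool.Agent.TH508.LT.br'_lower2 (L := L)
  exact ⟨K, hK, fun n hn => (h n hn).trans (br_le H n)⟩

end Q38.RL.W
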