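import Pool.Agent.Q294.Rs2
import Pool.Agent.TH966.AK.Main

/-!
Kesten's inequality for walks with a prescribed beginning, uniformly.
-/

set_option autoImplicit false

namespace Q38.RL

open Finset Filter Topology TH966.AK Q294.Rs
open scoped Classical

variable {A : P → P → Prop}

/-- walks all of whose vertices are in a relation to the first `k + 1` points and the last point -/
noncomputable def KP (A : P → P → Prop) (F : List P → P → P → Prop) (k n : ℕ) :
    Finset (List P) :=
  (Kw A n).filter (fun w => ∀ x ∈ w, F (w.take (k + 1)) (lst w) x)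

theorem mem_KP {F : List P → P → P → Prop} {k n : ℕ} {w : List P} :
    w ∈ KP A F k n ↔ w ∈ Kw A n ∧ ∀ x ∈ w, F (w.take (k + 1)) (lst w) x := by
  unfold KP
  exact mem_filter

/-- homogeneity -/
def Hom (A : P → P → Prop) : Prop :=
  ∀ v : P, ∃ φ : P ≃ P, φ 0 = v ∧ ∀ p q, A (φ p) (φ q) ↔ A p q

/-- the relation for the rest of a walk which begins with `η`, moved back by `φ` -/
def Re (F : List P → P → P → Prop) (η : List P) (φ : P ≃ P) (e x : P) : Prop :=
  (∀ y ∈ η, F η (φ e) y) ∧ F η (φ e) (φ x) ∧ φ x ∉ η.dropLast

theorem lst_map {w : List P} (hw : w ≠ []) (f : P → P) : lst (w.map f) = f (lst w) := by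
  unfold lst
  rw [List.getLast?_map]
  cases h : w.getLast? with
  | none => rw [List.getLast?_eq_none_iff] at h; exact absurd h hw
  | some a => simp

theorem lst_app {a b : List P} (hb : b ≠ []) : lst (a ++ b) = lst b := by
  unfold lst
  rw [List.getLast?_append_of_ne_nil _ hb]

theorem lst_concat (a : List P) (x : P) : lst (a ++ [x]) = x := by
  unfold lst
  rw [List.getLast?_concat]
  rfl

theorem dropLast_lst {η : List P} (h : η ≠ []) : η = η.dropLast ++ [lst η] := by
  rcases η.eq_nil_or_concat with rfl | ⟨a, x, rfl⟩
  · exact absurd rfl h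
  · rw [List.concat_eq_append, lst_concat, List.dropLast_concat]

theorem rest {k m : ℕ} {w : List P} (hl : w.length = k + m + 1) :
    (w.take (k + 1)).dropLast = w.take k ∧ (w.drop k).head? = some (lst (w.take (k + 1))) ∧
      (w.drop k).length = m + 1 := by
  have hk : k < w.length := by omega
  have h1 : w.take (k + 1) = w.take k ++ [w[k]] := by
    rw [List.take_add_one, List.getElem?_eq_getElem hk]
    rfl
  refine ⟨?_, ?_, ?_⟩
  · rw [h1, List.dropLast_concat]
  · rw [h1, lst_concat, List.head?_drop, List.getElem?_eq_getElem hk]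
  · rw [List.length_drop]; omega

theorem fiber (Z : Rule A) {k m : ℕ} {η : List P} (hη : η ∈ Kw A k) (φ : P ≃ P)
    (h0 : φ 0 = lst η) (hφ : ∀ p q, A (φ p) (φ q) ↔ A p q) (F : List P → P → P → Prop) :
    ((KP A F k (k + m)).filter (fun w => w.take (k + 1) = η)).card =
      (KR A (Re F η φ) m).card := by
  have hinj : Function.Injective (fun w : List P => η.dropLast ++ w.map φ) := by
    intro a b h
    exact List.map_injective_iff.2 φ.injective (List.append_cancel_left h)
  rw [← card_image_of_injective (KR A (Re F η φ) m) hinj]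
  congr 1
  rw [Z.mem_K] at hη
  obtain ⟨e1, e2, e3, e4⟩ := hη
  have hηne : η ≠ [] := by
    rintro rfl
    simp at e1
  have hηd := dropLast_lst hηne
  ext w
  rw [mem_filter, mem_image]
  constructor
  · rintro ⟨hw, ht⟩
    unfold KP at hw
    rw [mem_filter, Z.mem_K] at hw
    obtain ⟨⟨l1, l2, l3, l4⟩, hF⟩ := hw
    obtain ⟨r1, r2, r3⟩ := rest (k := k) (m := m) l1
    rw [ht] at r1 r2 hF
    have hd : w = η.dropLast ++ w.drop k := by rw [r1, List.take_append_drop]
    have hdne : w.drop k ≠ [] := by
      intro hc
      rw [hc] at r3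
      simp at r3
    have hmm : ((w.drop k).map φ.symm).map φ = w.drop k := by
      rw [List.map_map]
      simp
    have hdn : (w.drop k).Nodup := l3.sublist (List.drop_sublist _ _)
    have hdc : (w.drop k).IsChain A := l4.drop k
    have hlw : lst w = lst (w.drop k) := by
      conv_lhs => rw [hd]
      exact lst_app hdne
    have hle : φ (lst ((w.drop k).map φ.symm)) = lst w := by
      rw [lst_map hdne, Equiv.apply_symm_apply, hlw]
    refine ⟨(w.drop k).map φ.symm, ?_, ?_⟩
    · rw [mem_KR, Z.mem_K]
      refine ⟨⟨?_, ?_, ?_, ?_⟩, ?_⟩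
      · rw [List.length_map, r3]
      · rw [List.head?_map, r2, Option.map_some, ← h0, Equiv.symm_apply_apply]
      · exact (List.nodup_map_iff φ.symm.injective).2 hdn
      · rw [List.isChain_map]
        refine hdc.imp fun a b hab => ?_
        rw [← hφ, Equiv.apply_symm_apply, Equiv.apply_symm_apply]
        exact hab
      · intro x hx
        rw [List.mem_map] at hx
        obtain ⟨z, hz, rfl⟩ := hx
        have hzw : z ∈ w := List.mem_of_mem_drop hz
        unfold Re
        rw [hle, Equiv.apply_symm_apply]
        refine ⟨fun y hy => hF y ?_, hF z hzw, ?_⟩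
        · rw [← ht] at hy
          exact List.mem_of_mem_take hy
        · intro hc
          rw [hd, List.nodup_append] at l3
          exact l3.2.2 z hc z hz rfl
    · show η.dropLast ++ ((w.drop k).map φ.symm).map φ = w
      rw [hmm]
      exact hd.symm
  · rintro ⟨v, hv, rfl⟩
    rw [mem_KR, Z.mem_K] at hv
    obtain ⟨⟨l1, l2, l3, l4⟩, hR⟩ := hv
    obtain ⟨a, t, rfl⟩ := List.exists_cons_of_length_eq_add_one l1
    simp only [List.head?_cons, Option.some.injEq] at l2
    subst l2
    have hw : η.dropLast ++ ((0 : P) :: t).map φ = η ++ t.map φ := by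
      conv_rhs => rw [hηd]
      rw [List.map_cons, h0]
      simp
    have htake : (η ++ t.map φ).take (k + 1) = η := by
      rw [← e1, List.take_left']
      rfl
    have hlst : lst (η ++ t.map φ) = φ (lst ((0 : P) :: t)) := by
      rw [← hw, lst_app (by simp), lst_map (by simp)]
    have hch : ((0 : P) :: t).map φ = lst η :: t.map φ := by rw [List.map_cons, h0]
    have c1 : (lst η :: t.map φ).IsChain A := by
      rw [← hch, List.isChain_map]
      exact l4.imp fun a b hab => (hφ a b).2 hab
    have c2 : (lst η :: t.map φ).Nodup := by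
      rw [← hch]
      exact (List.nodup_map_iff φ.injective).2 l3
    have c3 : ∀ x ∈ (lst η :: t.map φ), x ∉ η.dropLast := by
      intro x hx
      rw [← hch, List.mem_map] at hx
      obtain ⟨z, hz, rfl⟩ := hx
      exact (hR z hz).2.2
    show η.dropLast ++ ((0 : P) :: t).map φ ∈ KP A F k (k + m) ∧
      (η.dropLast ++ ((0 : P) :: t).map φ).take (k + 1) = η
    rw [hw]
    refine ⟨?_, htake⟩
    unfold KP
    rw [mem_filter, Z.mem_K, htake, hlst]
    refine ⟨⟨?_, ?_, ?_, ?_⟩, ?_⟩
    · rw [List.length_append, e1, List.length_map]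
      simp only [List.length_cons, Nat.add_right_cancel_iff] at l1
      omega
    · rw [List.head?_append_of_ne_nil _ hηne, e2]
    · rw [List.nodup_append]
      refine ⟨e3, (List.nodup_cons.1 c2).2, ?_⟩
      intro a ha b hb hab
      subst hab
      rw [hηd, List.mem_append, List.mem_singleton] at ha
      rcases ha with ha | ha
      · exact c3 a (by simp [hb]) ha
      · rw [ha] at hb
        exact (List.nodup_cons.1 c2).1 hb
    · rw [List.isChain_append]
      refine ⟨e4, ?_, ?_⟩
      · exact c1.tail
      · intro x hx y hy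
        have hx' : x = lst η := by
          unfold lst
          rw [Option.mem_def] at hx
          rw [hx]
          rfl
        subst hx'
        obtain ⟨t', ht'⟩ : ∃ t', t.map φ = y :: t' := by
          cases h : t.map φ with
          | nil => rw [h] at hy; simp at hy
          | cons b t' =>
            rw [h] at hy
            simp only [List.head?_cons, Option.mem_def, Option.some.injEq] at hy
            exact ⟨t', by rw [hy]⟩
        rw [ht', List.isChain_cons_cons] at c1
        exact c1.1
    · intro x hx
      rw [List.mem_append] at hx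
      rcases hx with hx | hx
      · exact (hR 0 (by simp)).1 x hx
      · rw [List.mem_map] at hx
        obtain ⟨z, hz, rfl⟩ := hx
        exact (hR z (by simp [hz])).2.1

/-- a motion which moves the origin to `v` -/
noncomputable def mot (H : Hom A) (v : P) : P ≃ P := (H v).choose

theorem mot_zero (H : Hom A) (v : P) : mot H v 0 = v := (H v).choose_spec.1

theorem mot_adj (H : Hom A) (v : P) (p q : P) : A (mot H v p) (mot H v q) ↔ A p q :=
  (H v).choose_spec.2 p q

/-- the relation for the rest of the walk -/
noncomputable def Rf (H : Hom A) (F : List P → P → P → Prop) (η : List P) : P → P → Prop :=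
  Re F η (mot H (lst η))

theorem take_mem (Z : Rule A) {k m : ℕ} {w : List P} (hw : w ∈ Kw A (k + m)) :
    w.take (k + 1) ∈ Kw A k := by
  rw [Z.mem_K] at hw ⊢
  obtain ⟨l1, l2, l3, l4⟩ := hw
  refine ⟨?_, ?_, l3.sublist (List.take_sublist _ _), l4.take _⟩
  · rw [List.length_take]; omega
  · obtain ⟨a, t, rfl⟩ := List.exists_cons_of_length_eq_add_one l1
    simpa using l2

theorem card_KP (Z : Rule A) (H : Hom A) (F : List P → P → P → Prop) (k m : ℕ) :
    (KP A F k (k + m)).card = ∑ η ∈ Kw A k, (KR A (Rf H F η) m).card := by
  rw [card_eq_sum_card_fiberwise (f := fun w => w.take (k + 1)) (t := Kw A k)]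
  · refine sum_congr rfl fun η hη => ?_
    exact fiber Z hη _ (mot_zero H _) (mot_adj H _) F
  · intro w hw
    unfold KP at hw
    rw [Finset.mem_coe, mem_filter] at hw
    exact take_mem Z hw.1

end Q38.RL
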