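import Pool.Agent.TH966.AK.Rate

/-!
Rates of the ratios under Kesten's inequality, pointwise in terms of the size of one term.
-/

set_option autoImplicit false

namespace Q38.RL

open Finset Filter Topology TH966.KS TH966.KO TH966.AK

/-- the rate -/
noncomputable def rt (L : ℝ) (k : ℕ) : ℝ := (Real.log k + √L) / √(k : ℝ)

/-- the rate of convergence of the ratios, in terms of one lower bound -/
theorem rate_L {D θ : ℝ} (hD : 0 ≤ D) (hθ0 : 0 < θ) (hθ1 : θ < 1) {K : ℝ} (hK0 : 0 ≤ K) :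
    ∃ R : ℝ, 0 < R ∧ ∃ k1 : ℕ, ∀ k : ℕ, k1 ≤ k → ∀ k0 : ℕ, 2 * k0 ≤ k → ∀ y : ℕ → ℝ,
      Kes y D θ k0 → (∀ k, 0 ≤ y k) → (∀ m ≤ 2 * k, y m ≤ Real.exp (K * Real.log k ^ 2)) →
      ∀ L : ℝ, 0 ≤ L → Real.exp (-L) ≤ y k → R * rt L k ≤ 1 / 2 →
      |y (k + 1) / y k - 1| ≤ R * rt L k := by
  set M : ℝ := 16 * (D + 1) with hM
  have hM0 : 0 < M := by positivity
  have hlθ : 0 < Real.log (1 / θ) := Real.log_pos (by rw [lt_div_iff₀ hθ0]; linarith)
  set R : ℝ := √(4 * (K + 1) * M + 1 + 1 / Real.log (1 / θ)) with hR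
  have hR0 : 0 < R := Real.sqrt_pos.2 (by positivity)
  have hRp : R ^ 2 = 4 * (K + 1) * M + 1 + 1 / Real.log (1 / θ) := Real.sq_sqrt (by positivity)
  have t2 : Tendsto (fun k : ℕ => R * √(k : ℝ)) atTop atTop :=
    (Real.tendsto_sqrt_atTop.comp tendsto_natCast_atTop_atTop).const_mul_atTop hR0
  have t3 : Tendsto (fun k : ℕ => Real.log (k : ℝ)) atTop atTop :=
    Real.tendsto_log_atTop.comp tendsto_natCast_atTop_atTop
  obtain ⟨k1, hk1⟩ := eventually_atTop.1 ((t2.eventually_ge_atTop M).and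
    ((t3.eventually_ge_atTop 1).and (eventually_ge_atTop 8)))
  refine ⟨R, hR0, k1, fun k hk k0 hk0 y hKes hy hgr L hL0 hLk hc1 => ?_⟩
  obtain ⟨e2, e3, e8⟩ := hk1 k hk
  have hkR : (0 : ℝ) < k := by exact_mod_cast (show 0 < k by omega)
  have hsk : 0 < √(k : ℝ) := Real.sqrt_pos.2 hkR
  have hsq : √(k : ℝ) * √(k : ℝ) = k := Real.mul_self_sqrt hkR.le
  have hsL : 0 ≤ √L := Real.sqrt_nonneg L
  have hsL2 : √L * √L = L := Real.mul_self_sqrt hL0
  set l : ℝ := Real.log k with hl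
  have hrt : rt L k = (l + √L) / √(k : ℝ) := rfl
  set c : ℝ := R * rt L k with hc
  have hc0 : 0 < c := by rw [hc, hrt]; positivity
  have hck : c * k = R * √(k : ℝ) * (l + √L) := by
    rw [hc, hrt]
    calc R * ((l + √L) / √(k : ℝ)) * k = R * ((l + √L) / √(k : ℝ)) * (√(k : ℝ) * √(k : ℝ)) := by
          rw [hsq]
      _ = R * √(k : ℝ) * (l + √L) := by field_simp
  have hckM : M ≤ c * k := by
    rw [hck]
    nlinarith
  have hyk : 0 < y k := lt_of_lt_of_le (Real.exp_pos _) hLk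
  have hcc : c * (c * k) = R ^ 2 * (l + √L) ^ 2 := by
    rw [hck, hc, hrt]
    field_simp
  have hθk : θ ^ k ≤ y k := by
    refine le_trans ?_ hLk
    have h1 : θ ^ k = Real.exp (-(k * Real.log (1 / θ))) := by
      rw [one_div, Real.log_inv, mul_neg, neg_neg, mul_comm, Real.exp_mul, Real.exp_log hθ0,
        Real.rpow_natCast]
    rw [h1, Real.exp_le_exp, neg_le_neg_iff]
    -- `R √L ≤ √k / 2`
    have h2 : R * √L ≤ √(k : ℝ) / 2 := by
      have h3 : R * ((l + √L) / √(k : ℝ)) ≤ 1 / 2 := by rw [← hrt]; exact hc1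
      rw [← mul_div_assoc, div_le_iff₀ hsk] at h3
      nlinarith
    have h4 : (R * √L) ^ 2 ≤ (√(k : ℝ) / 2) ^ 2 := pow_le_pow_left₀ (by positivity) h2 2
    have h5 : R ^ 2 * L ≤ k / 4 := by nlinarith
    have h6 : 1 / Real.log (1 / θ) ≤ R ^ 2 := by
      rw [hRp]
      have : 0 ≤ 4 * (K + 1) * M := by positivity
      linarith
    have h7 : 1 / Real.log (1 / θ) * L ≤ k := by
      have := mul_le_mul_of_nonneg_right h6 hL0
      linarith
    rw [one_div, inv_mul_eq_div, div_le_iff₀ hlθ] at h7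
    exact h7
  -- the contradiction
  have hfin : ∀ J m : ℕ, c * k / M ≤ J → m ≤ 2 * k →
      Real.exp (c / 4 * J) * y k ≤ y m → False := by
    intro J m hJ hm2 hle
    have h1 : Real.exp (c / 4 * J) * Real.exp (-L) ≤ Real.exp (K * l ^ 2) := by
      refine le_trans ?_ (hgr m hm2)
      refine le_trans ?_ hle
      exact mul_le_mul_of_nonneg_left hLk (Real.exp_pos _).le
    rw [← Real.exp_add, Real.exp_le_exp] at h1
    have h8 : c / 4 * (c * k / M) ≤ K * l ^ 2 + L := by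
      have := mul_le_mul_of_nonneg_left hJ (show 0 ≤ c / 4 by positivity)
      linarith
    have h9 : c / 4 * (c * k / M) = R ^ 2 * (l + √L) ^ 2 / (4 * M) := by
      rw [← hcc]; field_simp
    rw [h9, div_le_iff₀ (by positivity)] at h8
    have h10 : (4 * (K + 1) * M + 1) * (l + √L) ^ 2 ≤ R ^ 2 * (l + √L) ^ 2 := by
      refine mul_le_mul_of_nonneg_right ?_ (by positivity)
      rw [hRp]
      have : 0 < 1 / Real.log (1 / θ) := by positivity
      linarith
    have h11 : K * l ^ 2 + L ≤ (K + 1) * (l + √L) ^ 2 := by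
      have h12 : l ^ 2 + L ≤ (l + √L) ^ 2 := by nlinarith [mul_nonneg (show 0 ≤ l by linarith) hsL]
      have h13 : K * l ^ 2 ≤ K * (l + √L) ^ 2 :=
        mul_le_mul_of_nonneg_left (by nlinarith [mul_nonneg (show 0 ≤ l by linarith) hsL]) hK0
      nlinarith [sq_nonneg l]
    have h14 : 0 < (l + √L) ^ 2 := by positivity
    have h15 := mul_le_mul_of_nonneg_right h11 (show 0 ≤ 4 * M by positivity)
    nlinarith
  rw [abs_le]
  constructor
  · by_contra hcon
    have h1 : y (k + 1) / y k < 1 - c := by linarith [not_le.1 hcon]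
    rw [div_lt_iff₀ hyk] at h1
    obtain ⟨J, hJ1, hJ2, hJk, hJ3⟩ := prop_down hKes hy hD hθ0 hθ1 hc0
      hc1 (by omega) (by omega) hckM hyk hθk h1
    exact hfin J (k - J) hJ1 (by omega) hJ3
  · by_contra hcon
    have h1 : 1 + c < y (k + 1) / y k := by linarith [not_le.1 hcon]
    rw [lt_div_iff₀ hyk] at h1
    obtain ⟨J, hJ1, hJk, hJ3⟩ := prop_up' hKes hy hD hθ0 hθ1 hc0
      hc1 (by omega) (by omega) hckM hyk hθk h1
    exact hfin J (k + J) hJ1 (by omega) hJ3

end Q38.RL
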