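import Pool.Agent.Q38.RL.KesP
import Pool.Agent.Q38.RL.Rate

/-!
Rates for walks with conditions on the beginning, uniformly.
-/

set_option autoImplicit false

namespace Q38.RL

open Finset Filter Topology TH966.KS TH966.KO TH966.AK Q294.Rs
open scoped Classical

variable {A : P → P → Prop} {Z : Rule A} {μ K : ℝ}

/-- normalised numbers -/
noncomputable def pn (A : P → P → Prop) (μ : ℝ) (F : List P → P → P → Prop) (k n : ℕ) : ℝ :=
  ((KP A F k n).card : ℝ) / μ ^ n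

theorem pn_nonneg (hμ : 1 ≤ μ) (F : List P → P → P → Prop) (k n : ℕ) : 0 ≤ pn A μ F k n := by
  have : 0 < μ := by linarith
  unfold pn
  positivity

theorem kesY (G : Growth Z μ K) (H : Hom A) : ∃ (D θ : ℝ) (N : ℕ), 0 ≤ D ∧ 0 < θ ∧ θ < 1 ∧
    ∀ (F : List P → P → P → Prop) (k r : ℕ),
      Kes (fun j => pn A μ F k (Z.s * j + r)) D θ (max N (2 * k)) := by
  obtain ⟨D, θ, N, hD, hθ0, hθ1, hN, h⟩ := kesP G H
  have hμ := G.hμ
  have hμ0 : 0 < μ := by linarith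
  have hs := G.hs
  obtain ⟨q, hq⟩ : ∃ q : ℝ, q = √θ := ⟨_, rfl⟩
  have hq0 : 0 < q := by rw [hq]; exact Real.sqrt_pos.2 hθ0
  have hq2 : q ^ 2 = θ := by rw [hq]; exact Real.sq_sqrt hθ0.le
  have hq1 : q < 1 := by
    by_contra hc
    have : 1 ≤ q := not_lt.1 hc
    nlinarith
  refine ⟨D, q, N, hD, hq0, hq1, fun F k r j hj hth => ?_⟩
  have hjN : N ≤ j := (le_max_left _ _).trans hj
  have hjk : 2 * k ≤ j := (le_max_right _ _).trans hj
  have hjs : j ≤ Z.s * j := Nat.le_mul_of_pos_left _ hs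
  have e1 : Z.s * (j + 1) + r = Z.s * j + r + Z.s := by ring
  have e2 : Z.s * (j + 2) + r = Z.s * j + r + Z.s + Z.s := by ring
  simp only [e1, e2] at hth ⊢
  have hth2 : (θ * μ) ^ (Z.s * j + r + Z.s) ≤ ((KP A F k (Z.s * j + r + Z.s)).card : ℝ) := by
    rw [mul_pow]
    unfold pn at hth
    rw [le_div_iff₀ (by positivity)] at hth
    refine le_trans (mul_le_mul_of_nonneg_right ?_ (by positivity)) hth
    have e3 : 2 * j + 2 = 2 * (j + 1) := by ring
    rw [e3, pow_mul, hq2]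
    exact pow_le_pow_of_le_one hθ0.le hθ1.le (by omega)
  have h1 := h F k (Z.s * j + r) (by omega) (by omega) hth2
  have hj0 : (0 : ℝ) < j := by
    have : 0 < j := by omega
    exact_mod_cast this
  have h2 : (1 : ℝ) + D / ((Z.s * j + r : ℕ) : ℝ) ≤ 1 + D / j := by
    refine add_le_add le_rfl (div_le_div_of_nonneg_left hD hj0 ?_)
    have : j ≤ Z.s * j + r := by omega
    exact_mod_cast this
  have h3 : ((KP A F k (Z.s * j + r + Z.s)).card : ℝ) ^ 2 ≤
      (KP A F k (Z.s * j + r)).card * (KP A F k (Z.s * j + r + Z.s + Z.s)).card * (1 + D / j) :=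
    h1.trans (mul_le_mul_of_nonneg_left h2 (by positivity))
  unfold pn
  have e4 : (μ ^ (Z.s * j + r + Z.s)) ^ 2 =
      μ ^ (Z.s * j + r) * μ ^ (Z.s * j + r + Z.s + Z.s) := by
    rw [← pow_mul, ← pow_add]
    congr 1
    ring
  rw [div_pow, div_mul_div_comm, div_mul_eq_mul_div, e4]
  exact div_le_div_of_nonneg_right h3 (by positivity)

theorem pn_le (hμ : 1 ≤ μ) (F : List P → P → P → Prop) (k s r j : ℕ) :
    pn A μ F k (s * j + r) ≤ yy A μ s r j := by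
  have : 0 < μ := by linarith
  unfold pn yy
  refine div_le_div_of_nonneg_right ?_ (by positivity)
  unfold KP
  exact_mod_cast card_le_card (filter_subset _ _)

/-- the rates along residue classes -/
theorem rateP (G : Growth Z μ K) (H : Hom A) : ∃ R : ℝ, 0 < R ∧ ∃ k1 : ℕ,
    ∀ r < Z.s, ∀ j : ℕ, k1 ≤ j → ∀ (F : List P → P → P → Prop) (k : ℕ), 4 * k ≤ j →
      ∀ L : ℝ, 0 ≤ L → Real.exp (-L) ≤ pn A μ F k (Z.s * j + r) → R * rt L j ≤ 1 / 2 →
      |pn A μ F k (Z.s * j + r + Z.s) / pn A μ F k (Z.s * j + r) - 1| ≤ R * rt L j := by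
  obtain ⟨D, θ, N, hD, hθ0, hθ1, h⟩ := kesY G H
  have hμ := G.hμ
  choose K' hK' hg using G.grow
  obtain ⟨K2, hK2⟩ : ∃ K2 : ℝ, K2 = 4 * ∑ r ∈ range Z.s, K' r := ⟨_, rfl⟩
  have hK20 : 0 ≤ K2 := by
    rw [hK2]
    exact mul_nonneg (by norm_num) (sum_nonneg fun r _ => hK' r)
  obtain ⟨R, hR, k1, hr⟩ := rate_L hD hθ0 hθ1 hK20
  refine ⟨R, hR, max k1 (max (2 * N) 2), fun r hrs j hj F k hk L hL0 hL hc => ?_⟩
  have hj1 : k1 ≤ j := (le_max_left _ _).trans hj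
  have hj2 : 2 * N ≤ j := ((le_max_left (2 * N) 2).trans (le_max_right _ _)).trans hj
  have hj3 : 2 ≤ j := ((le_max_right (2 * N) 2).trans (le_max_right _ _)).trans hj
  have h1 := hr j hj1 (max N (2 * k)) (by omega) (fun j => pn A μ F k (Z.s * j + r)) (h F k r)
    (fun _ => pn_nonneg hμ _ _ _) (by
      intro m hm
      refine (pn_le hμ F k Z.s r m).trans ((hg r (2 * j) (by omega) m hm).trans ?_)
      rw [Real.exp_le_exp]
      have hjR : (2 : ℝ) ≤ j := by exact_mod_cast hj3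
      have h2 : Real.log ((2 * j : ℕ) : ℝ) ≤ 2 * Real.log j := by
        have h3 : ((2 * j : ℕ) : ℝ) ≤ j * j := by
          exact_mod_cast Nat.mul_le_mul_right j (show 2 ≤ j by omega)
        have h5 := Real.log_le_log (by exact_mod_cast (show 0 < 2 * j by omega)) h3
        rw [Real.log_mul (by positivity) (by positivity)] at h5
        linarith
      have h6 : 0 ≤ Real.log ((2 * j : ℕ) : ℝ) :=
        Real.log_nonneg (by exact_mod_cast (show 1 ≤ 2 * j by omega))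
      have h7 : Real.log ((2 * j : ℕ) : ℝ) ^ 2 ≤ (2 * Real.log j) ^ 2 := pow_le_pow_left₀ h6 h2 2
      have h8 : K' r ≤ ∑ r ∈ range Z.s, K' r :=
        single_le_sum (f := fun r => K' r) (fun r _ => hK' r) (mem_range.2 hrs)
      calc K' r * Real.log ((2 * j : ℕ) : ℝ) ^ 2 ≤ K' r * (2 * Real.log j) ^ 2 :=
            mul_le_mul_of_nonneg_left h7 (hK' r)
        _ ≤ (∑ r ∈ range Z.s, K' r) * (2 * Real.log j) ^ 2 :=
            mul_le_mul_of_nonneg_right h8 (sq_nonneg _)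
        _ = K2 * Real.log j ^ 2 := by rw [hK2]; ring) L hL0 hL hc
  have e1 : Z.s * (j + 1) + r = Z.s * j + r + Z.s := by ring
  simp only [e1] at h1
  exact h1

theorem rt_nonneg (L : ℝ) (n : ℕ) : 0 ≤ rt L n := by
  unfold rt
  have : 0 ≤ Real.log (n : ℝ) := Real.log_natCast_nonneg n
  positivity

/-- comparison of the rates -/
theorem rt_comp {L : ℝ} {j n : ℕ} (hj : 1 ≤ j) (hjn : j ≤ n) (hn : n ≤ 4 * j) :
    rt L j ≤ 2 * rt L n := by
  unfold rt
  have hj' : (1 : ℝ) ≤ j := by exact_mod_cast hj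
  have hn' : (1 : ℝ) ≤ n := by exact_mod_cast hj.trans hjn
  have h3 : Real.log j ≤ Real.log n := Real.log_le_log (by positivity) (by exact_mod_cast hjn)
  have h4 : √(n : ℝ) ≤ 2 * √(j : ℝ) := by
    rw [Real.sqrt_le_left (by positivity), mul_pow, Real.sq_sqrt (by positivity)]
    have : (n : ℝ) ≤ 4 * j := by exact_mod_cast hn
    linarith
  have h5 : 0 ≤ Real.log j := Real.log_nonneg hj'
  have hsL := Real.sqrt_nonneg L
  have hsj : 0 < √(j : ℝ) := Real.sqrt_pos.2 (by linarith)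
  have hsn : 0 < √(n : ℝ) := Real.sqrt_pos.2 (by linarith)
  rw [← mul_div_assoc, div_le_div_iff₀ hsj hsn]
  calc (Real.log j + √L) * √(n : ℝ) ≤ (Real.log n + √L) * (2 * √(j : ℝ)) :=
        mul_le_mul (by linarith) h4 (by positivity) (by linarith)
    _ = 2 * (Real.log n + √L) * √(j : ℝ) := by ring

/-- **the rate of the ratios, uniformly** -/
theorem rateN (G : Growth Z μ K) (H : Hom A) (hs2 : Z.s ≤ 2) : ∃ R : ℝ, 0 < R ∧ ∃ n1 : ℕ,
    ∀ n : ℕ, n1 ≤ n → ∀ (F : List P → P → P → Prop) (k : ℕ), 8 * k ≤ n →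
      ∀ L : ℝ, 0 ≤ L → Real.exp (-L) ≤ pn A μ F k n → R * rt L n ≤ 1 / 2 →
      |pn A μ F k (n + Z.s) / pn A μ F k n - 1| ≤ R * rt L n := by
  obtain ⟨R, hR, k1, h⟩ := rateP G H
  have hs := G.hs
  refine ⟨2 * R, by positivity, 2 * k1 + 8, fun n hn F k hk L hL0 hL hc => ?_⟩
  have e := Nat.div_add_mod n Z.s
  have hmod : n % Z.s < Z.s := Nat.mod_lt _ (by omega)
  obtain ⟨j, hj⟩ : ∃ j, j = n / Z.s := ⟨_, rfl⟩
  obtain ⟨r, hr⟩ : ∃ r, r = n % Z.s := ⟨_, rfl⟩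
  rw [← hj, ← hr] at e
  rw [← hr] at hmod
  have hcases : Z.s = 1 ∨ Z.s = 2 := by omega
  have hjn : j ≤ n ∧ n ≤ 4 * j ∧ k1 ≤ j ∧ 4 * k ≤ j ∧ 1 ≤ j := by
    rcases hcases with h1 | h1 <;> rw [h1] at e hmod <;> omega
  obtain ⟨b1, b2, b3, b4, b5⟩ := hjn
  have hcomp := rt_comp (L := L) b5 b1 b2
  have h1 := h r hmod j b3 F k b4 L hL0
  rw [e] at h1
  have h2 : R * rt L j ≤ 2 * R * rt L n := by
    calc R * rt L j ≤ R * (2 * rt L n) := mul_le_mul_of_nonneg_left hcomp hR.le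
      _ = _ := by ring
  exact (h1 hL (h2.trans hc)).trans h2

end Q38.RL
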